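import Mathlib
import Pool.Agent.Helper35.YG.QE

set_option autoImplicit false
set_option linter.unusedSectionVars false

namespace Pool.Agent.Helper76.YG
open Pool.Agent.Helper35.YG

section
variable {F E : Type*} [Field F] [CharP F 2] [CommRing E] [Algebra F E] [Nontrivial E] (q : QE F E)
include q

theorem two_F : (2 : F) = 0 := CharTwo.two_eq_zero

theorem two_E : (2 : E) = 0 := by
  rw [← map_ofNat (algebraMap F E) 2]
  rw [show (OfNat.ofNat 2 : F) = 0 from CharTwo.two_eq_zero, map_zero]

theorem am_inj : Function.Injective (algebraMap F E) := (algebraMap F E).injective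

theorem N_mul (x y : E) : q.N (x * y) = q.N x * q.N y := by
  apply (algebraMap F E).injective
  rw [q.N_eq, map_mul, map_mul, q.N_eq, q.N_eq]; ring

theorem T_add (x y : E) : q.T (x + y) = q.T x + q.T y := by
  apply (algebraMap F E).injective
  rw [q.T_eq, map_add, map_add, q.T_eq, q.T_eq]; ring

theorem bar_smul (a : F) (x : E) : q.bar (a • x) = a • q.bar x := by
  rw [Algebra.smul_def, map_mul, q.bar_alg, Algebra.smul_def]

theorem T_smul (a : F) (x : E) : q.T (a • x) = a * q.T x := by
  apply (algebraMap F E).injective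
  rw [q.T_eq, map_mul, q.T_eq, bar_smul, Algebra.smul_def, Algebra.smul_def]; ring

theorem T_bar (x : E) : q.T (q.bar x) = q.T x := by
  apply (algebraMap F E).injective
  rw [q.T_eq, q.T_eq, q.bar_bar]; ring

theorem T_alg (a : F) : q.T (algebraMap F E a) = 0 := by
  apply (algebraMap F E).injective
  rw [q.T_eq, q.bar_alg, map_zero, ← map_add, CharTwo.add_self_eq_zero, map_zero]

theorem N_smul (a : F) (x : E) : q.N (a • x) = a ^ 2 * q.N x := by
  apply (algebraMap F E).injective
  rw [q.N_eq, bar_smul, map_mul, q.N_eq, Algebra.smul_def, Algebra.smul_def, map_pow]; ring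

theorem N_bar (x : E) : q.N (q.bar x) = q.N x := by
  apply (algebraMap F E).injective
  rw [q.N_eq, q.N_eq, q.bar_bar]; ring

theorem N_add (x y : E) : q.N (x + y) = q.N x + q.N y + q.T (x * q.bar y) := by
  apply (algebraMap F E).injective
  rw [q.N_eq, map_add, map_add, map_add, q.N_eq, q.N_eq, q.T_eq, map_mul, q.bar_bar]; ring

theorem N_zero : q.N 0 = 0 := by
  apply (algebraMap F E).injective
  rw [q.N_eq]; simp

theorem T_zero : q.T 0 = 0 := by
  apply (algebraMap F E).injective
  rw [q.T_eq]; simp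

theorem N_one : q.N 1 = 1 := by
  apply (algebraMap F E).injective
  rw [q.N_eq]; simp

theorem T_one : q.T 1 = 0 := by
  have := T_alg q 1
  simpa using this

theorem N_alg (a : F) : q.N (algebraMap F E a) = a ^ 2 := by
  apply (algebraMap F E).injective
  rw [q.N_eq, q.bar_alg, map_pow]; ring

theorem T_comm (x y : E) : q.T (x * q.bar y) = q.T (y * q.bar x) := by
  rw [← T_bar q (x * q.bar y), map_mul, q.bar_bar, mul_comm]

theorem T_self (x : E) : q.T (x * q.bar x) = 0 := by
  rw [← q.N_eq, T_alg]

/-- the element `ζ` -/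
def ze : E := q.η * q.η

theorem ze_def : ze q = q.η * q.η := rfl

theorem N_ze : q.N (ze q) = 1 := by
  apply (algebraMap F E).injective
  rw [q.N_eq, ze, map_mul, map_one]
  calc q.η * q.η * (q.bar q.η * q.bar q.η) = (q.η * q.bar q.η) * (q.η * q.bar q.η) := by ring
    _ = 1 := by rw [q.η_bar]; ring

theorem ze_bar : ze q * q.bar (ze q) = 1 := by
  rw [← q.N_eq, N_ze, map_one]

/-- every element of `E` is `a + b ζ` -/
theorem span' (x : E) : ∃ a b : F, x = algebraMap F E a + b • ze q := by
  obtain ⟨a, b, h⟩ := q.span x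
  exact ⟨a, b, by rw [h, Algebra.smul_def, ze]⟩

theorem T_one_bar (a b : F) : q.T (1 * q.bar (algebraMap F E a + b • ze q)) = b * q.T (ze q) := by
  rw [one_mul, T_bar, T_add, T_alg, T_smul, zero_add]

theorem T_ze_bar (a b : F) :
    q.T (ze q * q.bar (algebraMap F E a + b • ze q)) = a * q.T (ze q) := by
  rw [T_comm, add_mul, T_add, smul_mul_assoc, T_smul, T_self, mul_zero, add_zero,
    ← Algebra.smul_def, T_smul, T_bar]

theorem nondeg {e : E} (he : e ≠ 0) (c : F) : ∃ f : E, q.T (f * q.bar e) = c := by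
  obtain ⟨a, b, rfl⟩ := span' q e
  have hs : q.T (ze q) ≠ 0 := q.s_ne
  by_cases hb : b = 0
  · have ha : a ≠ 0 := by
      rintro rfl
      apply he; rw [hb]; simp
    refine ⟨(c / (a * q.T (ze q))) • ze q, ?_⟩
    rw [smul_mul_assoc, T_smul, T_ze_bar]
    field_simp
  · refine ⟨(c / (b * q.T (ze q))) • 1, ?_⟩
    rw [smul_mul_assoc, T_smul, T_one_bar]
    field_simp

theorem coord_inj {a b a' b' : F} (h : algebraMap F E a + b • ze q = algebraMap F E a' + b' • ze q) :
    a = a' ∧ b = b' := by
  have hs : q.T (ze q) ≠ 0 := q.s_ne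
  have h1 := T_one_bar q a b
  have h2 := T_ze_bar q a b
  rw [h, T_one_bar] at h1
  rw [h, T_ze_bar] at h2
  exact ⟨(mul_right_cancel₀ hs h2).symm, (mul_right_cancel₀ hs h1).symm⟩

theorem N_coord (a b : F) :
    q.N (algebraMap F E a + b • ze q) = a ^ 2 + a * b * q.T (ze q) + b ^ 2 := by
  rw [N_add, N_alg, N_smul, N_ze, ← Algebra.smul_def, T_smul, bar_smul, T_smul, T_bar]
  ring

theorem bar_of_norm_one {x : E} (h : q.N x = 1) : x * q.bar x = 1 := by
  rw [← q.N_eq, h, map_one]

end

/-- square roots in a finite field of characteristic two -/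
theorem exists_sqrt {F : Type*} [Field F] [Finite F] [CharP F 2] (a : F) : ∃ b : F, b ^ 2 = a := by
  have : Function.Surjective (frobenius F 2) := Finite.surjective_of_injective (frobenius_inj F 2)
  obtain ⟨b, hb⟩ := this a
  exact ⟨b, by simpa [frobenius_def] using hb⟩

theorem sq_inj {F : Type*} [Field F] [CharP F 2] {a b : F} (h : a ^ 2 = b ^ 2) : a = b := by
  have := frobenius_inj F 2 (a₁ := a) (a₂ := b) (by simpa [frobenius_def] using h)
  exact this

end Pool.Agent.Helper76.YG
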