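import Mathlib
import Pool.Agent.Helper76.YG.QB

set_option autoImplicit false
set_option linter.unusedSectionVars false

namespace Pool.Agent.Helper76.YG
open Pool.Agent.Helper35.YG

section
variable {F : Type*} [Field F] [Fintype F] [DecidableEq F]

theorem card_quad (a b c : F) (h : a ≠ 0 ∨ b ≠ 0) :
    (Finset.univ.filter fun x : F => a * x ^ 2 + b * x + c = 0).card ≤ 2 := by
  classical
  set P : Polynomial F := Polynomial.C a * Polynomial.X ^ 2 + Polynomial.C b * Polynomial.X +
    Polynomial.C c with hP
  have hP0 : P ≠ 0 := by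
    intro h0
    have h1 : P.coeff 2 = a := by rw [hP]; simp [Polynomial.coeff_X, Polynomial.coeff_C]
    have h2 : P.coeff 1 = b := by rw [hP]; simp [Polynomial.coeff_X, Polynomial.coeff_C]
    rw [h0, Polynomial.coeff_zero] at h1 h2
    rcases h with h | h
    · exact h h1.symm
    · exact h h2.symm
  calc (Finset.univ.filter fun x : F => a * x ^ 2 + b * x + c = 0).card
      ≤ P.roots.toFinset.card := by
        apply Finset.card_le_card
        intro x hx
        rw [Finset.mem_filter] at hx
        rw [Multiset.mem_toFinset, Polynomial.mem_roots hP0, Polynomial.IsRoot, hP]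
        simpa using hx.2
    _ ≤ Multiset.card P.roots := Multiset.toFinset_card_le _
    _ ≤ P.natDegree := Polynomial.card_roots' P
    _ ≤ 2 := by rw [hP]; exact Polynomial.natDegree_quadratic_le

theorem card_zeros (A l1 l2 C s : F) (h : A ≠ 0 ∨ l1 ≠ 0 ∨ l2 ≠ 0 ∨ C ≠ 0) :
    (Finset.univ.filter fun p : F × F =>
      A * (p.1 ^ 2 + p.1 * p.2 * s + p.2 ^ 2) + p.1 * l1 + p.2 * l2 + C = 0).card ≤
      2 * Fintype.card F := by
  classical
  by_cases h1 : A ≠ 0 ∨ l1 ≠ 0
  · have h2 := Finset.card_le_mul_card_image (f := Prod.snd) (Finset.univ.filter fun p : F × F =>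
      A * (p.1 ^ 2 + p.1 * p.2 * s + p.2 ^ 2) + p.1 * l1 + p.2 * l2 + C = 0) 2 (by
        intro y _
        by_cases hA : A = 0
        · refine le_trans (Finset.card_le_card_of_injOn Prod.fst (t :=
            (Finset.univ.filter fun x : F => (0 : F) * x ^ 2 + l1 * x + (y * l2 + C) = 0)) ?_ ?_)
            (card_quad _ _ _ ?_)
          · intro p hp
            simp only [Finset.coe_filter, Finset.mem_filter, Finset.mem_univ, true_and,
              Set.mem_ofPred_eq] at hp ⊢
            obtain ⟨hp1, rfl⟩ := hp
            rw [hA] at hp1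
            linear_combination hp1
          · intro p hp p' hp' hpp
            simp only [Finset.coe_filter, Finset.mem_filter, Finset.mem_univ, true_and,
              Set.mem_ofPred_eq] at hp hp'
            exact Prod.ext hpp (hp.2.trans hp'.2.symm)
          · right; rcases h1 with h1 | h1
            · exact absurd hA h1
            · exact h1
        · refine le_trans (Finset.card_le_card_of_injOn Prod.fst (t :=
            (Finset.univ.filter fun x : F => A * x ^ 2 + (A * y * s + l1) * x +
              (A * y ^ 2 + y * l2 + C) = 0)) ?_ ?_)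
            (card_quad _ _ _ (Or.inl hA))
          · intro p hp
            simp only [Finset.coe_filter, Finset.mem_filter, Finset.mem_univ, true_and,
              Set.mem_ofPred_eq] at hp ⊢
            obtain ⟨hp1, rfl⟩ := hp
            linear_combination hp1
          · intro p hp p' hp' hpp
            simp only [Finset.coe_filter, Finset.mem_filter, Finset.mem_univ, true_and,
              Set.mem_ofPred_eq] at hp hp'
            exact Prod.ext hpp (hp.2.trans hp'.2.symm))
    exact h2.trans (Nat.mul_le_mul_left 2 (Finset.card_le_univ _))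
  · push Not at h1
    obtain ⟨rfl, rfl⟩ := h1
    have h2 := Finset.card_le_mul_card_image (f := Prod.fst) (Finset.univ.filter fun p : F × F =>
      0 * (p.1 ^ 2 + p.1 * p.2 * s + p.2 ^ 2) + p.1 * 0 + p.2 * l2 + C = 0) 2 (by
        intro x _
        by_cases hl : l2 = 0
        · have hC : C ≠ 0 := by
            rcases h with h | h | h | h
            · exact absurd rfl h
            · exact absurd rfl h
            · exact absurd hl h
            · exact h
          rw [Finset.card_eq_zero.2]
          · omega
          · rw [Finset.filter_eq_empty_iff]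
            intro p hp
            exfalso
            rw [Finset.mem_filter, hl] at hp
            apply hC
            linear_combination hp.2
        · refine le_trans (Finset.card_le_card_of_injOn Prod.snd (t :=
            (Finset.univ.filter fun x : F => (0 : F) * x ^ 2 + l2 * x + C = 0)) ?_ ?_)
            (card_quad _ _ _ (Or.inr hl))
          · intro p hp
            simp only [Finset.coe_filter, Finset.mem_filter, Finset.mem_univ, true_and,
              Set.mem_ofPred_eq] at hp ⊢
            obtain ⟨hp1, rfl⟩ := hp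
            linear_combination hp1
          · intro p hp p' hp' hpp
            simp only [Finset.coe_filter, Finset.mem_filter, Finset.mem_univ, true_and,
              Set.mem_ofPred_eq] at hp hp'
            exact Prod.ext (hp.2.trans hp'.2.symm) hpp)
    exact h2.trans (Nat.mul_le_mul_left 2 (Finset.card_le_univ _))

end

section
variable {F E : Type*} [Field F] [Fintype F] [CharP F 2] [CommRing E] [Algebra F E] [Nontrivial E]
  (q : QE F E)

/-- coordinates -/
def co (p : F × F) : E := algebraMap F E p.1 + p.2 • ze q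

theorem co_inj : Function.Injective (co q) := fun p p' h =>
  Prod.ext (coord_inj q h).1 (coord_inj q h).2

theorem co_surj : Function.Surjective (co q) := fun x => by
  obtain ⟨a, b, h⟩ := span' q x
  exact ⟨(a, b), h.symm⟩

theorem s_ne_one (hq : 4 ≤ Fintype.card F) : q.T (ze q) ≠ 1 := by
  classical
  intro h
  have h1 : (⊥ : Subring F) = ⊤ := q.gen _ (by
    rw [← ze_def, h]; exact one_mem _)
  have h2 : (Finset.univ : Finset F) ⊆ {0, 1} := by
    intro x _
    have : x ∈ (⊥ : Subring F) := by rw [h1]; trivial
    rw [Subring.mem_bot] at this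
    obtain ⟨n, rfl⟩ := this
    rcases Int.even_or_odd' n with ⟨m, rfl | rfl⟩
    · push_cast
      rw [CharTwo.two_eq_zero]; simp
    · push_cast
      rw [CharTwo.two_eq_zero]; simp
  have h3 := Finset.card_le_card h2
  have h4 : ({0, 1} : Finset F).card ≤ 2 := Finset.card_le_two
  rw [Finset.card_univ] at h3
  omega

theorem aniso_of_four (hq : Fintype.card F = 4) {e : E} (he : q.N e = 0) : e = 0 := by
  have h2 : (2 : F) = 0 := CharTwo.two_eq_zero
  obtain ⟨a, b, rfl⟩ := span' q e
  rw [N_coord] at he
  set s := q.T (ze q) with hs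
  have hs0 : s ≠ 0 := q.s_ne
  have hs1 : s ≠ 1 := s_ne_one q (by omega)
  have hfour : ∀ x : F, x ≠ 0 → x ≠ 1 → x ^ 2 + x + 1 = 0 := by
    intro x hx hx1
    have h1 : x ^ (Fintype.card F - 1) = 1 := FiniteField.pow_card_sub_one_eq_one x hx
    rw [hq] at h1
    have h3 : (x - 1) * (x ^ 2 + x + 1) = 0 := by
      have : x ^ 3 = 1 := h1
      linear_combination this
    rcases mul_eq_zero.1 h3 with h | h
    · exact absurd (sub_eq_zero.1 h) hx1
    · exact h
  by_cases hb : b = 0
  · have ha : a = 0 := by
      rw [hb] at he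
      have : a ^ 2 = 0 := by linear_combination he
      exact pow_eq_zero_iff (two_ne_zero) |>.1 this
    rw [ha, hb]; simp
  · exfalso
    set u := a / b with hu
    have h3 : u ^ 2 + u * s + 1 = 0 := by
      rw [hu]; field_simp
      linear_combination he
    have hu0 : u ≠ 0 := by
      intro h; rw [h] at h3; simp at h3
    by_cases hu1 : u = 1
    · rw [hu1] at h3
      apply hs0; linear_combination h3 - h2
    · have h4 := hfour u hu0 hu1
      have h5 : u * (s - 1) = 0 := by linear_combination h3 - h4
      rcases mul_eq_zero.1 h5 with h | h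
      · exact hu0 h
      · exact hs1 (sub_eq_zero.1 h)

/-- the number of zeros of a quadratic function -/
theorem card_zeros' [DecidableEq F] (A C : F) (g : E) (h : A ≠ 0 ∨ g ≠ 0 ∨ C ≠ 0) :
    (Finset.univ.filter fun p : F × F =>
      A * q.N (co q p) + q.T (co q p * q.bar g) + C = 0).card ≤ 2 * Fintype.card F := by
  have h1 : ∀ p : F × F, A * q.N (co q p) + q.T (co q p * q.bar g) + C =
      A * (p.1 ^ 2 + p.1 * p.2 * q.T (ze q) + p.2 ^ 2) + p.1 * q.T (q.bar g) +
        p.2 * q.T (ze q * q.bar g) + C := by
    intro p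
    unfold co
    rw [N_coord, add_mul, T_add, ← Algebra.smul_def, T_smul, smul_mul_assoc, T_smul]
    ring
  simp only [h1]
  apply card_zeros
  rcases h with h | h | h
  · exact Or.inl h
  · right
    by_contra hcon
    push Not at hcon
    obtain ⟨f, hf⟩ := nondeg q h 1
    obtain ⟨a, b, rfl⟩ := span' q f
    rw [add_mul, T_add, ← Algebra.smul_def, T_smul, smul_mul_assoc, T_smul, hcon.1, hcon.2.1] at hf
    simp at hf
  · exact Or.inr (Or.inr (Or.inr h))

/-- three quadratic functions have a common non-zero -/
theorem exists_nonzero (hq : 4 ≤ Fintype.card F) {A₁ C₁ A₂ C₂ A₃ C₃ : F} {g₁ g₂ g₃ : E}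
    (h1 : A₁ ≠ 0 ∨ g₁ ≠ 0 ∨ C₁ ≠ 0) (h2 : A₂ ≠ 0 ∨ g₂ ≠ 0 ∨ C₂ ≠ 0) (h3 : A₃ ≠ 0 ∨ g₃ ≠ 0 ∨ C₃ ≠ 0)
    (h1' : A₁ * C₁ = q.N g₁) (h2' : A₂ * C₂ = q.N g₂) :
    ∃ e : E, A₁ * q.N e + q.T (e * q.bar g₁) + C₁ ≠ 0 ∧ A₂ * q.N e + q.T (e * q.bar g₂) + C₂ ≠ 0 ∧
      A₃ * q.N e + q.T (e * q.bar g₃) + C₃ ≠ 0 := by
  classical
  by_contra hcon
  push Not at hcon
  set Z : F → F → E → Finset (F × F) := fun A C g => Finset.univ.filter fun p : F × F =>
      A * q.N (co q p) + q.T (co q p * q.bar g) + C = 0 with hZ
  have hcov : (Finset.univ : Finset (F × F)) ⊆ Z A₁ C₁ g₁ ∪ (Z A₂ C₂ g₂ ∪ Z A₃ C₃ g₃) := by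
    intro p _
    simp only [hZ, Finset.mem_union, Finset.mem_filter, Finset.mem_univ, true_and]
    by_contra h
    push Not at h
    exact h.2.2 (hcon (co q p) h.1 h.2.1)
  have hc := Finset.card_le_card hcov
  have hc1 := Finset.card_union_le (Z A₁ C₁ g₁) (Z A₂ C₂ g₂ ∪ Z A₃ C₃ g₃)
  have hc2 := Finset.card_union_le (Z A₂ C₂ g₂) (Z A₃ C₃ g₃)
  have hc3 : (Z A₃ C₃ g₃).card ≤ 2 * Fintype.card F := card_zeros' q _ _ _ h3
  rw [Finset.card_univ, Fintype.card_prod] at hc
  by_cases hfour : Fintype.card F = 4
  · -- anisotropic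
    have hone : ∀ (A C : F) (g : E), (A ≠ 0 ∨ g ≠ 0 ∨ C ≠ 0) → A * C = q.N g →
        (Z A C g).card ≤ 1 := by
      intro A C g h h'
      have h22 : (2 : F) = 0 := CharTwo.two_eq_zero
      rw [Finset.card_le_one]
      intro p hp p' hp'
      simp only [hZ, Finset.mem_filter, Finset.mem_univ, true_and] at hp hp'
      apply co_inj q
      by_cases hA : A = 0
      · exfalso
        have hg : g = 0 := by
          apply aniso_of_four q hfour
          rw [← h', hA, zero_mul]
        rw [hA, hg, map_zero, mul_zero, T_zero] at hp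
        rcases h with h | h | h
        · exact h hA
        · exact h hg
        · apply h; linear_combination hp
      · have hrep : ∀ e : E, A * q.N e + q.T (e * q.bar g) + C = 0 → e = A⁻¹ • g := by
          intro e he
          have h5 : q.N (e + A⁻¹ • g) = 0 := by
            rw [N_add, N_smul, bar_smul, mul_smul_comm, T_smul, ← h']
            field_simp
            linear_combination he
          have h6 := aniso_of_four q hfour h5
          have h7 : (2 : E) = 0 := two_E q
          linear_combination h6 - (A⁻¹ • g) * h7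
        rw [hrep _ hp, hrep _ hp']
    have hc4 := hone _ _ _ h1 h1'
    have hc5 := hone _ _ _ h2 h2'
    rw [hfour] at hc hc3
    omega
  · have h8 : 8 ≤ Fintype.card F := by
      obtain ⟨n, -, hn⟩ := FiniteField.card F 2
      have hn' : 3 ≤ (n : ℕ) := by
        by_contra h
        push Not at h
        have hn0 : 0 < (n : ℕ) := n.pos
        have : (n : ℕ) = 1 ∨ (n : ℕ) = 2 := by omega
        rcases this with h | h
        · rw [h] at hn; omega
        · rw [h] at hn; exact hfour (by rw [hn]; norm_num)
      rw [hn]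
      calc 8 = 2 ^ 3 := by norm_num
        _ ≤ 2 ^ (n : ℕ) := Nat.pow_le_pow_right (by norm_num) hn'
    have hc4 : (Z A₁ C₁ g₁).card ≤ 2 * Fintype.card F := card_zeros' q _ _ _ h1
    have hc5 : (Z A₂ C₂ g₂).card ≤ 2 * Fintype.card F := card_zeros' q _ _ _ h2
    have : Fintype.card F * Fintype.card F ≤ 6 * Fintype.card F := by omega
    have h9 := Nat.le_of_mul_le_mul_right this (by omega)
    omega

end

end Pool.Agent.Helper76.YG
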