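import Mathlib
import Pool.Agent.Helper35.YG.CoverDefs

set_option autoImplicit false
set_option linter.unusedSectionVars false

namespace Pool.Agent.Helper76.YG
open Pool.Agent.Helper35.YG

/-- an affine quadric `{x | Q x = l x}` in characteristic two -/
structure AQ (F M : Type*) [Field F] [AddCommGroup M] [Module F M] where
  Q : M → F
  b : M → M → F
  l : M → F
  Q_add : ∀ x y, Q (x + y) = Q x + Q y + b x y
  Q_smul : ∀ (c : F) x, Q (c • x) = c ^ 2 * Q x
  b_add : ∀ x y z, b (x + y) z = b x z + b y z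
  b_smul : ∀ (c : F) x y, b (c • x) y = c * b x y
  b_comm : ∀ x y, b x y = b y x
  b_self : ∀ x, b x x = 0
  l_add : ∀ x y, l (x + y) = l x + l y
  l_smul : ∀ (c : F) x, l (c • x) = c * l x

namespace AQ

variable {F M : Type*} [Field F] [CharP F 2] [AddCommGroup M] [Module F M] (D : AQ F M)

theorem b_add' (x y z : M) : D.b x (y + z) = D.b x y + D.b x z := by
  rw [D.b_comm, D.b_add, D.b_comm y, D.b_comm z]

theorem b_smul' (c : F) (x y : M) : D.b x (c • y) = c * D.b x y := by
  rw [D.b_comm, D.b_smul, D.b_comm]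

/-- the affine pairing -/
def BB (x y : M) : F := D.b x y + D.l x + D.l y

/-- the points -/
def X : Set M := {x | D.Q x = D.l x}

/-- the functional of a reflection -/
def c (x u : M) : F := D.l u + D.b x u

/-- reflection -/
def r (u x : M) : M := x + (D.c x u / D.Q u) • u

theorem BB_comm (x y : M) : D.BB x y = D.BB y x := by
  unfold BB; rw [D.b_comm]; ring

theorem BB_self (x : M) : D.BB x x = 0 := by
  unfold BB; rw [D.b_self, zero_add, CharTwo.add_self_eq_zero]

theorem c_add_smul (x u v : M) (t : F) : D.c (x + t • v) u = D.c x u + t * D.b v u := by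
  unfold c; rw [D.b_add, D.b_smul]; ring

theorem r_r (u x : M) : D.r u (D.r u x) = x := by
  unfold r
  rw [c_add_smul, D.b_self, mul_zero, add_zero, add_assoc, ← add_smul, CharTwo.add_self_eq_zero,
    zero_smul, add_zero]

theorem r_mem {u : M} (hu : D.Q u ≠ 0) {x : M} (hx : x ∈ D.X) : D.r u x ∈ D.X := by
  have h2 : (2 : F) = 0 := CharTwo.two_eq_zero
  have hx' : D.Q x = D.l x := hx
  show D.Q (D.r u x) = D.l (D.r u x)
  unfold r
  rw [D.Q_add, D.Q_smul, D.b_smul', D.l_add, D.l_smul, hx']
  unfold c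
  field_simp
  linear_combination (D.l u * D.b x u + D.b x u ^ 2) * h2

theorem BB_r {u : M} (hu : D.Q u ≠ 0) (x y : M) : D.BB (D.r u x) (D.r u y) = D.BB x y := by
  have h2 : (2 : F) = 0 := CharTwo.two_eq_zero
  unfold BB r
  rw [D.b_add, D.b_add', D.b_smul, D.b_smul', D.b_add', D.b_smul', D.b_self, D.l_add, D.l_add,
    D.l_smul, D.l_smul, D.b_comm u y]
  unfold c
  field_simp
  linear_combination D.Q u * (D.l u ^ 2 + D.b x u * D.l u + D.l u * D.b y u + D.b x u * D.b y u) * h2

/-- reflections swapping two points -/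
theorem r_swap {x y : M} (hx : x ∈ D.X) (hy : y ∈ D.X) (h : D.BB x y ≠ 0) :
    D.Q (x + y) = D.BB x y ∧ D.r (x + y) x = y := by
  have hx' : D.Q x = D.l x := hx
  have hy' : D.Q y = D.l y := hy
  have h1 : D.Q (x + y) = D.BB x y := by
    rw [D.Q_add, hx', hy']; unfold BB; ring
  refine ⟨h1, ?_⟩
  unfold r
  have h3 : D.c x (x + y) = D.BB x y := by
    unfold c BB; rw [D.b_add', D.b_self, D.l_add]; ring
  rw [h3, h1, div_self h, one_smul, ← add_assoc]
  have : x + x = 0 := by
    rw [← two_smul F x, CharTwo.two_eq_zero, zero_smul]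
  rw [this, zero_add]

/-- reflections fixing a point -/
theorem r_fix {x y z : M} (h : D.BB x z = D.BB y z) : D.r (x + y) z = z := by
  unfold r
  have : D.c z (x + y) = 0 := by
    have h2 : (2 : F) = 0 := CharTwo.two_eq_zero
    unfold BB at h
    unfold c
    rw [D.b_add', D.l_add, D.b_comm z x, D.b_comm z y]
    linear_combination h + (D.l y + D.b y z) * h2
  rw [this, zero_div, zero_smul, add_zero]

end AQ

end Pool.Agent.Helper76.YG

namespace Pool.Agent.Helper76.YG
namespace AQ

variable {F M : Type*} [Field F] [CharP F 2] [AddCommGroup M] [Module F M] (D : AQ F M)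

/-- connectedness -/
def conn (x y : M) : Prop := Relation.ReflTransGen (fun a b => b ∈ D.X ∧ D.BB a b = 1) x y

theorem conn_r {u : M} (hu : D.Q u ≠ 0) {x y : M} (h : D.conn x y) :
    D.conn (D.r u x) (D.r u y) := by
  unfold conn at h ⊢
  induction h with
  | refl => exact Relation.ReflTransGen.refl
  | tail _ h ih => exact ih.tail ⟨D.r_mem hu h.1, by rw [D.BB_r hu]; exact h.2⟩

/-- the reflection in `u` preserves the component of `0` -/
def Inv (u : M) : Prop := ∀ x, D.conn 0 x → D.conn 0 (D.r u x)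

theorem inv_of {u : M} (hu : D.Q u ≠ 0) (h : D.conn 0 (D.r u 0)) : D.Inv u :=
  fun _ hx => Relation.ReflTransGen.trans h (D.conn_r hu hx)

theorem Q_zero : D.Q 0 = 0 := by
  have := D.Q_smul 0 0
  simpa using this

theorem l_zero : D.l 0 = 0 := by
  have := D.l_smul 0 0
  simpa using this

theorem b_zero (x : M) : D.b x 0 = 0 := by
  have := D.b_smul' 0 x 0
  simpa using this

theorem r_zero {u : M} (hu : D.Q u = 1) : D.r u 0 = D.l u • u := by
  unfold r c
  rw [D.b_comm, D.b_zero, hu]; simp

theorem r_one {u : M} (hu : D.Q u = 1) (x : M) : D.r u x = x + D.c x u • u := by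
  unfold r; rw [hu, div_one]

/-- conjugating reflections -/
theorem r_conj {u v : M} (hu : D.Q u = 1) (hv : D.Q v = 1) (x : M) :
    D.r u (D.r v (D.r u x)) = D.r (v + D.b v u • u) x := by
  have h2 : (2 : F) = 0 := CharTwo.two_eq_zero
  have h3 : D.Q (v + D.b v u • u) = 1 := by
    rw [D.Q_add, D.Q_smul, hu, hv, D.b_smul']
    linear_combination D.b v u ^ 2 * h2
  rw [D.r_one h3, D.r_one hu, D.r_one hu, D.r_one hv]
  have e1 : D.c x (v + D.b v u • u) = D.c x v + D.b v u * D.c x u := by
    unfold c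
    rw [D.l_add, D.l_smul, D.b_add', D.b_smul']; ring
  rw [e1]
  simp only [D.c_add_smul, D.b_self, D.b_comm u v]
  match_scalars
  · ring
  · linear_combination (D.c x u) * h2
  · ring

/-- products of reflections along a singular line -/
theorem r_line {u w : M} (hu : D.Q u = 1) (hw : D.Q w = 0) (huw : D.b u w = 0) (k l : F) (x : M) :
    D.r (u + k • w) (D.r (u + l • w) x) = D.r (u + (k + l) • w) (D.r u x) := by
  have h2 : (2 : F) = 0 := CharTwo.two_eq_zero
  have h3 : ∀ k : F, D.Q (u + k • w) = 1 := by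
    intro k
    rw [D.Q_add, D.Q_smul, hu, hw, D.b_smul', huw]; ring
  have e1 : ∀ (k : F) (x : M), D.c x (u + k • w) = D.c x u + k * D.c x w := by
    intro k x
    unfold c
    rw [D.l_add, D.l_smul, D.b_add', D.b_smul']; ring
  rw [D.r_one (h3 _), D.r_one (h3 _), D.r_one (h3 _), D.r_one hu]
  have e2 : ∀ l : F, D.b (u + l • w) u = 0 := by
    intro l
    rw [D.b_add, D.b_self, D.b_smul, D.b_comm w u, huw]; ring
  have e3 : ∀ l : F, D.b (u + l • w) w = 0 := by
    intro l
    rw [D.b_add, D.b_smul, D.b_self, huw]; ring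
  simp only [e1, D.c_add_smul, D.b_self, huw, e2, e3, mul_zero, add_zero]
  match_scalars
  · ring
  · ring
  · linear_combination (- k * l * D.c x w) * h2

end AQ
end Pool.Agent.Helper76.YG
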