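import Mathlib
import Pool.Agent.Helper76.YG.AQ
import Pool.Agent.Helper76.YG.QB

set_option autoImplicit false
set_option linter.unusedSectionVars false

namespace Pool.Agent.Helper76.YG
open Pool.Agent.Helper35.YG

namespace AQ

variable {F M : Type*} [Field F] [CharP F 2] [AddCommGroup M] [Module F M] (D : AQ F M)

theorem b_self_c (x : M) : D.c x x = D.l x := by
  unfold c; rw [D.b_self, add_zero]

theorem c_add (x u v : M) : D.c x (u + v) = D.c x u + D.c x v := by
  unfold c; rw [D.l_add, D.b_add']; ring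

theorem c_smul (x u : M) (t : F) : D.c x (t • u) = t * D.c x u := by
  unfold c; rw [D.l_smul, D.b_smul']; ring

theorem c_eq (x u : M) : D.c x u = D.BB x u + D.l x := by
  have h2 : (2 : F) = 0 := CharTwo.two_eq_zero
  unfold c BB; linear_combination - D.l x * h2

theorem exists_nonsing [FiniteDimensional F M] (hdim : 4 ≤ Module.finrank F M)
    (hnd : ∀ y, (∀ x, D.b x y = 0) → D.Q y = 0 → y = 0) {ρ : M} (hρ : ∀ x, D.b x ρ = 0)
    (hρl : D.l ρ = 1) (A Z C : M) (hP : D.BB A Z + D.BB Z C + D.BB A C ≠ 0) :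
    ∃ d, D.c A d = 0 ∧ D.c Z d = 0 ∧ D.c C d = 0 ∧ D.Q d ≠ 0 := by
  classical
  have h2 : (2 : F) = 0 := CharTwo.two_eq_zero
  have h2M : ∀ x : M, x + x = 0 := fun x => by
    rw [← two_smul F x, h2, zero_smul]
  by_contra hcon
  push Not at hcon
  set a := D.BB A Z with ha
  set b := D.BB Z C with hb
  set c := D.BB A C with hc
  set P := a + b + c with hPdef
  have hcρ : ∀ x, D.c x ρ = 1 := by
    intro x; unfold AQ.c; rw [hρ, hρl, add_zero]
  have cAZ : D.c A Z = a + D.l A := D.c_eq A Z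
  have cAC : D.c A C = c + D.l A := D.c_eq A C
  have cZA : D.c Z A = a + D.l Z := by rw [D.c_eq, D.BB_comm]
  have cZC : D.c Z C = b + D.l Z := D.c_eq Z C
  have cCA : D.c C A = c + D.l C := by rw [D.c_eq, D.BB_comm]
  have cCZ : D.c C Z = b + D.l C := by rw [D.c_eq, D.BB_comm]
  -- the projection
  have hproj : ∀ x : M, ∃ α γ δ : F,
      D.c A (x + α • A + (α + γ) • Z + γ • C + δ • ρ) = 0 ∧
      D.c Z (x + α • A + (α + γ) • Z + γ • C + δ • ρ) = 0 ∧
      D.c C (x + α • A + (α + γ) • Z + γ • C + δ • ρ) = 0 := by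
    intro x
    refine ⟨(D.c Z x + D.c C x) / P, (D.c A x + D.c Z x) / P,
      D.c A x + ((D.c Z x + D.c C x) / P + (D.c A x + D.c Z x) / P) * a +
        (D.c A x + D.c Z x) / P * c, ?_, ?_, ?_⟩
    · simp only [D.c_add, D.c_smul, D.b_self_c, cAZ, cAC, hcρ]
      field_simp
      rw [hPdef]
      linear_combination (D.c A x * a * 2 + D.c A x * b + D.c A x * c * 2 + D.c A x * D.l A +
        a * D.c Z x * 2 + a * D.c C x + c * D.c Z x + D.c Z x * D.l A * 2 + D.c C x * D.l A) * h2
    · simp only [D.c_add, D.c_smul, D.b_self_c, cZA, cZC, hcρ]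
      field_simp
      rw [hPdef]
      linear_combination (D.c Z x * a * 2 + D.c Z x * b + D.c Z x * c + D.c Z x * D.l Z * 2 +
        a * D.c C x + a * D.c A x + b * D.c A x + c * D.c A x + D.c C x * D.l Z +
        D.l Z * D.c A x) * h2
    · simp only [D.c_add, D.c_smul, D.b_self_c, cCA, cCZ, hcρ]
      field_simp
      rw [hPdef]
      linear_combination (D.c C x * a + D.c C x * b + D.c C x * c + D.c C x * D.l C +
        a * D.c Z x + a * D.c A x + b * D.c Z x + b * D.c A x + c * D.c Z x + c * D.c A x +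
        D.c Z x * D.l C * 2 + D.l C * D.c A x) * h2
  have key : ∀ x : M, ∃ α γ δ : F, x + α • A + (α + γ) • Z + γ • C + δ • ρ = 0 := by
    intro y
    obtain ⟨α, γ, δ, k1, k2, k3⟩ := hproj y
    refine ⟨α, γ, δ, ?_⟩
    generalize y + α • A + (α + γ) • Z + γ • C + δ • ρ = d at k1 k2 k3
    apply hnd d _ (hcon d k1 k2 k3)
    intro x
    obtain ⟨α', γ', δ', k1', k2', k3'⟩ := hproj x
    have hQ := hcon _ (by rw [D.c_add, k1, k1', zero_add]) (by rw [D.c_add, k2, k2', zero_add])
      (by rw [D.c_add, k3, k3', zero_add] :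
        D.c C (d + (x + α' • A + (α' + γ') • Z + γ' • C + δ' • ρ)) = 0)
    rw [D.Q_add, hcon d k1 k2 k3, hcon _ k1' k2' k3', zero_add, zero_add, D.b_add', D.b_add',
      D.b_add', D.b_add', D.b_smul', D.b_smul', D.b_smul', D.b_smul', hρ, D.b_comm d A,
      D.b_comm d Z, D.b_comm d C, D.b_comm d x] at hQ
    unfold AQ.c at k1 k2 k3
    linear_combination hQ - α' * k1 - (α' + γ') * k2 - γ' * k3 + (α' * D.l d + γ' * D.l d) * h2
  have hspan : Submodule.span F (Set.range ![A + Z, Z + C, ρ]) = ⊤ := by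
    rw [eq_top_iff]
    intro x _
    obtain ⟨α, γ, δ, h⟩ := key x
    have hx : x = α • (A + Z) + γ • (Z + C) + δ • ρ := by
      have h3 := h2M (α • (A + Z) + γ • (Z + C) + δ • ρ)
      have h4 : x + (α • (A + Z) + γ • (Z + C) + δ • ρ) = 0 := by
        rw [← h]; module
      calc x = x + ((α • (A + Z) + γ • (Z + C) + δ • ρ) + (α • (A + Z) + γ • (Z + C) + δ • ρ)) := by
            rw [h3, add_zero]
        _ = (x + (α • (A + Z) + γ • (Z + C) + δ • ρ)) + (α • (A + Z) + γ • (Z + C) + δ • ρ) := by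
            abel
        _ = _ := by rw [h4, zero_add]
    rw [hx]
    refine add_mem (add_mem ?_ ?_) ?_
    · exact Submodule.smul_mem _ _ (Submodule.subset_span ⟨0, rfl⟩)
    · exact Submodule.smul_mem _ _ (Submodule.subset_span ⟨1, rfl⟩)
    · exact Submodule.smul_mem _ _ (Submodule.subset_span ⟨2, rfl⟩)
  have h3 : Module.finrank F M ≤ 3 := by
    rw [← finrank_top F M, ← hspan]
    have := finrank_range_le_card (R := F) ![A + Z, Z + C, ρ]
    simpa [Set.finrank] using this
  omega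

/-- a common neighbour of three points -/
theorem exists_common [Finite F] [FiniteDimensional F M] (hdim : 4 ≤ Module.finrank F M)
    (hnd : ∀ y, (∀ x, D.b x y = 0) → D.Q y = 0 → y = 0) {ρ : M} (hρ : ∀ x, D.b x ρ = 0)
    (hρl : D.l ρ = 1) (A Z C : M) (hP : D.BB A Z + D.BB Z C + D.BB A C ≠ 0) :
    ∃ x ∈ D.X, D.BB x A = 1 ∧ D.BB x Z = 1 ∧ D.BB x C = 1 := by
  have h2 : (2 : F) = 0 := CharTwo.two_eq_zero
  obtain ⟨d, d1, d2, d3, hd⟩ := D.exists_nonsing hdim hnd hρ hρl A Z C hP
  set a := D.BB A Z with ha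
  set b := D.BB Z C with hb
  set c := D.BB A C with hc
  set P := a + b + c with hPdef
  set X0 : M := (b / P) • A + (c / P) • Z + (a / P) • C + ρ with hX0
  obtain ⟨t, ht⟩ := exists_sqrt ((D.Q X0 + D.l X0) / D.Q d)
  have bAZ : D.b A Z = a + D.l A + D.l Z := by
    rw [ha]; unfold BB; linear_combination - (D.l A + D.l Z) * h2
  have bAC : D.b A C = c + D.l A + D.l C := by
    rw [hc]; unfold BB; linear_combination - (D.l A + D.l C) * h2
  have bZC : D.b Z C = b + D.l Z + D.l C := by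
    rw [hb]; unfold BB; linear_combination - (D.l Z + D.l C) * h2
  have hρ' : ∀ x, D.b ρ x = 0 := fun x => by rw [D.b_comm, hρ]
  have eA : D.BB X0 A = 1 := by
    unfold BB
    rw [hX0]
    simp only [D.b_add, D.b_smul, D.l_add, D.l_smul, hρ', hρl, D.b_self, D.b_comm Z A,
      D.b_comm C A, bAZ, bAC]
    field_simp
    rw [hPdef]
    linear_combination (a * c + a * D.l A + c * D.l Z + a * D.l C + b * D.l A + c * D.l A) * h2
  have eZ : D.BB X0 Z = 1 := by
    unfold BB
    rw [hX0]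
    simp only [D.b_add, D.b_smul, D.l_add, D.l_smul, hρ', hρl, D.b_self, D.b_comm C Z,
      bAZ, bZC]
    field_simp
    rw [hPdef]
    linear_combination (b * a + b * D.l A + b * D.l Z + a * D.l Z + a * D.l C + D.l Z * c) * h2
  have eC : D.BB X0 C = 1 := by
    unfold BB
    rw [hX0]
    simp only [D.b_add, D.b_smul, D.l_add, D.l_smul, hρ', hρl, D.b_self, bAC, bZC]
    field_simp
    rw [hPdef]
    linear_combination (b * c + b * D.l A + b * D.l C + c * D.l C + c * D.l Z + D.l C * a) * h2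
  have hBt : ∀ V : M, D.c V d = 0 → D.BB X0 V = 1 → D.BB (X0 + t • d) V = 1 := by
    intro V h3 h4
    unfold BB at h4 ⊢
    unfold AQ.c at h3
    rw [D.b_add, D.b_smul, D.l_add, D.l_smul, D.b_comm d V]
    linear_combination h4 + t * h3
  refine ⟨X0 + t • d, ?_, hBt _ d1 eA, hBt _ d2 eZ, hBt _ d3 eC⟩
  have hc0 : D.b X0 d + D.l d = 0 := by
    unfold AQ.c at d1 d2 d3
    rw [hX0]
    simp only [D.b_add, D.b_smul, hρ']
    have : D.l d = (b / P + c / P + a / P) * D.l d := by
      rw [← add_div, ← add_div]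
      have : (b + c + a) / P = 1 := by
        rw [div_eq_one_iff_eq hP, hPdef]; ring
      rw [this, one_mul]
    linear_combination this + (b / P) * d1 + (c / P) * d2 + (a / P) * d3
  have ht' : t ^ 2 * D.Q d = D.Q X0 + D.l X0 := by
    rw [ht]; field_simp
  show D.Q _ = D.l _
  rw [D.Q_add, D.Q_smul, D.l_add, D.l_smul, D.b_smul']
  linear_combination ht' + t * hc0 + (D.Q X0 - t * D.l d) * h2

end AQ

end Pool.Agent.Helper76.YG
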