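import Mathlib
import Pool.Agent.Helper76.YG.AQ
import Pool.Agent.Helper76.YG.QB

set_option autoImplicit false
set_option linter.unusedSectionVars false

namespace Pool.Agent.Helper76.YG
open Pool.Agent.Helper35.YG

section
variable {F E : Type*} [Field F] [CharP F 2] [CommRing E] [Algebra F E] [Nontrivial E] (q : QE F E)

/-- the quadric `N e = θ μ² + μ` -/
def AY (θ : F) : AQ F (E × F) where
  Q x := q.N x.1 + θ * x.2 ^ 2
  b x y := q.T (x.1 * q.bar y.1)
  l x := x.2
  Q_add x y := by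
    have h2 : (2 : F) = 0 := CharTwo.two_eq_zero
    rw [Prod.fst_add, Prod.snd_add, N_add]
    linear_combination (θ * x.2 * y.2) * h2
  Q_smul c x := by
    rw [Prod.smul_fst, Prod.smul_snd, N_smul, smul_eq_mul]; ring
  b_add x y z := by rw [Prod.fst_add, add_mul, T_add]
  b_smul c x y := by rw [Prod.smul_fst, smul_mul_assoc, T_smul]
  b_comm x y := T_comm q _ _
  b_self x := T_self q _
  l_add x y := rfl
  l_smul c x := rfl

/-- the special vectors -/
def U (t k : F) (ξ : E) : E × F := (k • ξ, (1 + k) / t)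

variable {q}

theorem Q_U {t : F} (ht : t ≠ 0) (k : F) {ξ : E} (hξ : q.N ξ = 1) :
    (AY q (t ^ 2)).Q (U t k ξ) = 1 := by
  have h2 : (2 : F) = 0 := CharTwo.two_eq_zero
  show q.N (k • ξ) + t ^ 2 * ((1 + k) / t) ^ 2 = 1
  rw [N_smul, hξ]
  field_simp
  linear_combination (k ^ 2 + k) * h2

theorem r_U {t : F} (ht : t ≠ 0) (k l : F) {ξ : E} (hξ : q.N ξ = 1) (x : E × F) :
    (AY q (t ^ 2)).r (U t k ξ) ((AY q (t ^ 2)).r (U t l ξ) x) =
      (AY q (t ^ 2)).r (U t (k + l) ξ) ((AY q (t ^ 2)).r (U t 0 1) x) := by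
  have h2 : (2 : F) = 0 := CharTwo.two_eq_zero
  have hU : ∀ k : F, U t k ξ = U t 0 1 + k • (ξ, 1 / t) := by
    intro k
    unfold U
    ext
    · simp
    · simp only [Prod.snd_add, Prod.smul_snd, smul_eq_mul]; ring
  rw [hU k, hU l, hU (k + l)]
  apply AQ.r_line
  · exact Q_U ht 0 (N_one q)
  · show q.N ξ + t ^ 2 * (1 / t) ^ 2 = 0
    rw [hξ]; field_simp; linear_combination h2
  · show q.T (((0 : F) • (1 : E)) * _) = 0
    rw [zero_smul, zero_mul, T_zero]

theorem r_U_comm {t : F} (ht : t ≠ 0) (l : F) {ξ : E} (hξ : q.N ξ = 1) (x : E × F) :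
    (AY q (t ^ 2)).r (U t 0 1) ((AY q (t ^ 2)).r (U t l ξ) x) =
      (AY q (t ^ 2)).r (U t l ξ) ((AY q (t ^ 2)).r (U t 0 1) x) := by
  have h := r_U (q := q) ht 0 l hξ x
  have h0 : U t (0 : F) ξ = U t 0 (1 : E) := by simp [U]
  rwa [h0, zero_add] at h

/-- the set of good parameters -/
def Wset (q : QE F E) (t : F) : Set F := {k | ∀ ξ : E, q.N ξ = 1 → ∀ x, (AY q (t ^ 2)).conn 0 x →
  (AY q (t ^ 2)).conn 0 ((AY q (t ^ 2)).r (U t k ξ) ((AY q (t ^ 2)).r (U t 0 1) x))}

theorem W_zero {t : F} : (0 : F) ∈ Wset q t := by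
  intro ξ hξ x hx
  have h0 : U t (0 : F) ξ = U t 0 (1 : E) := by simp [U]
  rw [h0, AQ.r_r]; exact hx

theorem W_add {t : F} (ht : t ≠ 0) {k l : F} (hk : k ∈ Wset q t) (hl : l ∈ Wset q t) :
    k + l ∈ Wset q t := by
  intro ξ hξ x hx
  have h1 := hk ξ hξ _ (hl ξ hξ x hx)
  rw [r_U_comm ht l hξ, AQ.r_r, r_U ht k l hξ] at h1 
  exact h1

theorem inv_one {t : F} (ht : t ≠ 0) {ξ : E} (hξ : q.N ξ = 1) :
    (AY q (t ^ 2)).Inv (U t 1 ξ) := by
  apply AQ.inv_of
  · rw [Q_U ht 1 hξ]; exact one_ne_zero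
  · rw [AQ.r_zero _ (Q_U ht 1 hξ)]
    have : (AY q (t ^ 2)).l (U t 1 ξ) = 0 := by
      show (1 + 1 : F) / t = 0
      rw [CharTwo.add_self_eq_zero, zero_div]
    rw [this, zero_smul]
    exact Relation.ReflTransGen.refl

theorem inv_h {t : F} (ht : t ≠ 0) {ξ : E} (hξ : q.N ξ = 1) :
    (AY q (t ^ 2)).Inv (U t (1 + t) ξ) := by
  have hl : (AY q (t ^ 2)).l (U t (1 + t) ξ) = 1 := by
    show (1 + (1 + t) : F) / t = 1
    rw [← add_assoc, CharTwo.add_self_eq_zero, zero_add, div_self ht]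
  apply AQ.inv_of
  · rw [Q_U ht _ hξ]; exact one_ne_zero
  · rw [AQ.r_zero _ (Q_U ht _ hξ), hl, one_smul]
    refine Relation.ReflTransGen.single ⟨?_, ?_⟩
    · show _ = _
      rw [hl, Q_U ht _ hξ]
    · show (AY q (t ^ 2)).b 0 _ + (AY q (t ^ 2)).l 0 + _ = 1
      rw [hl, AQ.b_comm, AQ.b_zero, AQ.l_zero]; ring

theorem W_t {t : F} (ht : t ≠ 0) : t ∈ Wset q t := by
  intro ξ hξ x hx
  have h1 := inv_one ht hξ _ (inv_h ht hξ _ hx)
  rw [r_U ht _ _ hξ, ← add_assoc, CharTwo.add_self_eq_zero, zero_add] at h1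
  exact h1

/-- the conjugation step -/
theorem W_step {t : F} (ht : t ≠ 0) {k : F} (hk : k ∈ Wset q t) {g : E} (hg : q.N g = 1) :
    (t * (1 + t) * q.T g) * k ∈ Wset q t := by
  have h2 : (2 : F) = 0 := CharTwo.two_eq_zero
  set τ := q.T g with hτ
  set c := t * (1 + t) with hc
  by_cases h1 : 1 + c * τ = 0
  · have : c * τ = 1 := by linear_combination h1 - h2
    rwa [this, one_mul]
  · -- the rotated vectors
    have key : k * (1 + c * τ) ∈ Wset q t := by
      intro ξ'' hξ'' x hx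
      set κ : E := (1 + c * τ)⁻¹ • (g + algebraMap F E ((1 + t) ^ 2 * τ)) with hκ
      have hκN : q.N κ = 1 := by
        rw [hκ, N_smul, N_add, N_alg, hg, q.bar_alg, mul_comm g, ← Algebra.smul_def, T_smul, ← hτ]
        have : (1 + c * τ) ^ 2 = 1 + ((1 + t) ^ 2 * τ) ^ 2 + (1 + t) ^ 2 * τ * τ := by
          rw [hc]
          linear_combination (t * (1 + t) * τ - (1 + t) ^ 2 * τ ^ 2 - t * (1 + t) ^ 2 * τ ^ 2) * h2
        rw [← this]
        field_simp
      have hκb : κ * q.bar κ = 1 := bar_of_norm_one q hκN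
      set ξ' : E := ξ'' * q.bar κ with hξ'
      set ξ : E := g * ξ' with hξ
      have hN' : q.N ξ' = 1 := by rw [hξ', N_mul, N_bar, hκN, hξ'']; ring
      have hN : q.N ξ = 1 := by rw [hξ, N_mul, hN', hg]; ring
      have hTT : q.T (ξ * q.bar ξ') = τ := by
        rw [hξ, mul_assoc, bar_of_norm_one q hN', mul_one]
      -- the conjugated vector
      have hQ' := Q_U (q := q) ht (1 + t) hN'
      have hconj : U t k ξ + (AY q (t ^ 2)).b (U t k ξ) (U t (1 + t) ξ') • U t (1 + t) ξ' =
          U t (k * (1 + c * τ)) ξ'' := by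
        have hb : (AY q (t ^ 2)).b (U t k ξ) (U t (1 + t) ξ') = k * (1 + t) * τ := by
          show q.T ((k • ξ) * q.bar ((1 + t) • ξ')) = _
          rw [bar_smul, smul_mul_assoc, mul_smul_comm, T_smul, T_smul, hTT]; ring
        rw [hb]
        have e1 : (1 + c * τ) • ξ'' = ξ + ((1 + t) ^ 2 * τ) • ξ' := by
          have e2 : ξ + ((1 + t) ^ 2 * τ) • ξ' = ((1 + c * τ) • κ) * ξ' := by
            rw [hκ, smul_smul, mul_inv_cancel₀ h1, one_smul, add_mul, ← Algebra.smul_def]
          rw [e2, hξ', smul_mul_assoc]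
          congr 1
          calc ξ'' = (κ * q.bar κ) * ξ'' := by rw [hκb, one_mul]
            _ = κ * (ξ'' * q.bar κ) := by ring
        unfold U
        ext
        · simp only [Prod.fst_add, Prod.smul_fst]
          rw [mul_smul k (1 + c * τ), e1]
          module
        · simp only [Prod.snd_add, Prod.smul_snd, smul_eq_mul]
          rw [hc]
          field_simp
          linear_combination (k * (1 + t) * τ) * h2
      have hb0 : U t 0 (1 : E) + (AY q (t ^ 2)).b (U t 0 1) (U t (1 + t) ξ') • U t (1 + t) ξ' =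
          U t 0 1 := by
        have hb : (AY q (t ^ 2)).b (U t 0 1) (U t (1 + t) ξ') = 0 := by
          show q.T (((0 : F) • (1 : E)) * _) = 0
          rw [zero_smul, zero_mul, T_zero]
        rw [hb, zero_smul, add_zero]
      have hi := inv_h (q := q) ht hN'
      have h3 := hi _ (hk ξ hN _ (hi _ hx))
      have h4 := AQ.r_conj (AY q (t ^ 2)) hQ' (Q_U ht 0 (N_one q)) x
      rw [hb0] at h4
      have h5 := AQ.r_conj (AY q (t ^ 2)) hQ' (Q_U ht k hN) ((AY q (t ^ 2)).r (U t 0 1) x)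
      rw [hconj] at h5
      rw [← h5, ← h4, AQ.r_r]
      exact h3
    have h3 := W_add ht hk key
    have : k + k * (1 + c * τ) = c * τ * k := by linear_combination k * h2
    rwa [this] at h3

/-- all parameters are good -/
theorem W_univ [Finite F] {t : F} (ht : t ≠ 0) (ht1 : 1 + t ≠ 0) (k : F) : k ∈ Wset q t := by
  have := Fintype.ofFinite F
  let R : Subring F :=
    { carrier := {f | ∀ k ∈ Wset q t, f * k ∈ Wset q t}
      mul_mem' := by
        intro a b ha hb k hk
        rw [mul_assoc]; exact ha _ (hb _ hk)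
      one_mem' := by intro k hk; rwa [one_mul]
      add_mem' := by
        intro a b ha hb k hk
        rw [add_mul]; exact W_add ht (ha _ hk) (hb _ hk)
      zero_mem' := by intro k hk; rw [zero_mul]; exact W_zero
      neg_mem' := by
        intro a ha k hk
        rw [CharTwo.neg_eq]; exact ha k hk }
  have hR : ∀ f, f ∈ R ↔ ∀ k ∈ Wset q t, f * k ∈ Wset q t := fun f => Iff.rfl
  set s := q.T (ze q) with hs
  have hs0 : s ≠ 0 := q.s_ne
  set c := t * (1 + t) with hc
  have hc0 : c ≠ 0 := mul_ne_zero ht ht1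
  have h1 : c * s ∈ R := by
    rw [hR]; intro k hk
    exact W_step ht hk (N_ze q)
  have hT2 : q.T (ze q * ze q) = s ^ 2 := by
    have h2 : (2 : E) = 0 := two_E q
    apply (algebraMap F E).injective
    rw [q.T_eq, map_mul, hs, map_pow, q.T_eq]
    linear_combination (- ze q * q.bar (ze q)) * h2
  have h2 : c * s ^ 2 ∈ R := by
    rw [hR]; intro k hk
    have := W_step (g := ze q * ze q) ht hk (by rw [N_mul, N_ze]; ring)
    rwa [hT2] at this
  have h3 : (c * s)⁻¹ ∈ R := by
    have h4 : (c * s) ^ (Fintype.card F - 1) = 1 :=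
      FiniteField.pow_card_sub_one_eq_one _ (mul_ne_zero hc0 hs0)
    have h5 : 2 ≤ Fintype.card F := Fintype.one_lt_card
    have h6 : (c * s)⁻¹ = (c * s) ^ (Fintype.card F - 2) := by
      apply inv_eq_of_mul_eq_one_right
      rw [← pow_succ']
      convert h4 using 2
      omega
    rw [h6]; exact pow_mem h1 _
  have h4 : s ∈ R := by
    have : s = (c * s)⁻¹ * (c * s ^ 2) := by field_simp
    rw [this]; exact mul_mem h3 h2
  have h5 : R = ⊤ := q.gen R h4
  have h6 : k / t ∈ R := by rw [h5]; trivial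
  have h7 := (hR _).1 h6 t (W_t ht)
  rwa [div_mul_cancel₀ _ ht] at h7

theorem inv_U [Finite F] {t : F} (ht : t ≠ 0) (ht1 : 1 + t ≠ 0) (k : F) {ξ : E} (hξ : q.N ξ = 1) :
    (AY q (t ^ 2)).Inv (U t k ξ) := by
  intro x hx
  have h1 := W_univ (q := q) ht ht1 (k + 1) ξ hξ _ (inv_one ht hξ x hx)
  rwa [← r_U ht k 1 hξ, AQ.r_r] at h1

/-- points with nonzero norm -/
theorem conn_of_ne [Finite F] {t : F} (ht : t ≠ 0) (ht1 : 1 + t ≠ 0) {x : E × F}
    (hx : x ∈ (AY q (t ^ 2)).X) (h1 : q.N x.1 ≠ 0) : (AY q (t ^ 2)).conn 0 x := by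
  have h2 : (2 : F) = 0 := CharTwo.two_eq_zero
  obtain ⟨e, μ⟩ := x
  have hx' : q.N e + t ^ 2 * μ ^ 2 = μ := hx
  simp only at h1
  have hμ : μ ≠ 0 := by
    rintro rfl
    apply h1; linear_combination hx'
  obtain ⟨m, hm⟩ := exists_sqrt μ
  obtain ⟨n, hn⟩ := exists_sqrt (q.N e)
  have hn0 : n ≠ 0 := by rintro rfl; apply h1; rw [← hn]; ring
  have hm0 : m ≠ 0 := by rintro rfl; apply hμ; rw [← hm]; ring
  have hξ : q.N (n⁻¹ • e) = 1 := by
    rw [N_smul, ← hn]; field_simp
  have e1 : n = m + t * m ^ 2 := by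
    apply sq_inj
    have : n ^ 2 = m ^ 2 - t ^ 2 * (m ^ 2) ^ 2 := by
      rw [hn, hm]; linear_combination hx'
    rw [this]
    linear_combination (- t ^ 2 * m ^ 4 - t * m ^ 3) * h2
  have h3 := inv_U (q := q) ht ht1 (n / m) hξ 0 Relation.ReflTransGen.refl
  rw [AQ.r_zero _ (Q_U ht _ hξ)] at h3
  have h4 : (AY q (t ^ 2)).l (U t (n / m) (n⁻¹ • e)) • U t (n / m) (n⁻¹ • e) = (e, μ) := by
    have h5 : (AY q (t ^ 2)).l (U t (n / m) (n⁻¹ • e)) = m := by
      show (1 + n / m) / t = m
      rw [e1]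
      field_simp
      linear_combination (1 : F) * h2
    rw [h5]
    have h6 : (1 + n / m) / t = m := h5
    unfold U
    ext
    · simp only [Prod.smul_fst]
      rw [smul_smul, smul_smul]
      have : m * (n / m) * n⁻¹ = 1 := by field_simp
      rw [this, one_smul]
    · simp only [Prod.smul_snd, smul_eq_mul]
      rw [h6, ← hm]; ring
  rwa [h4] at h3

/-- the graph is connected -/
theorem conn_Y [Fintype F] (hq : 4 ≤ Fintype.card F) {θ : F} (hθ : θ ≠ 0) (hθ1 : θ ≠ 1)
    {x : E × F} (hx : x ∈ (AY q θ).X) : (AY q θ).conn 0 x := by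
  classical
  have h2 : (2 : F) = 0 := CharTwo.two_eq_zero
  obtain ⟨t, rfl⟩ := exists_sqrt θ
  have ht : t ≠ 0 := by rintro rfl; apply hθ; ring
  have ht1 : 1 + t ≠ 0 := by
    intro h
    apply hθ1
    have : t = 1 := by linear_combination h - h2
    rw [this]; ring
  by_cases h1 : q.N x.1 = 0
  · obtain ⟨e, μ⟩ := x
    have hx' : q.N e + t ^ 2 * μ ^ 2 = μ := hx
    simp only at h1
    by_cases he : e = 0
    · subst he
      by_cases hμ : μ = 0
      · subst hμ; exact Relation.ReflTransGen.refl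
      · have e1 : μ = 1 / t ^ 2 := by
          rw [h1, zero_add] at hx'
          field_simp
          apply mul_left_cancel₀ hμ
          linear_combination hx'
        have h3 := inv_U (q := q) ht ht1 0 (N_one q) 0 Relation.ReflTransGen.refl
        rw [AQ.r_zero _ (Q_U ht _ (N_one q))] at h3
        have h4 : (AY q (t ^ 2)).l (U t 0 1) • U t 0 (1 : E) = (0, μ) := by
          have h5 : (AY q (t ^ 2)).l (U t 0 1) = 1 / t := by
            show (1 + 0) / t = 1 / t
            ring
          rw [h5]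
          unfold U
          ext
          · simp
          · simp only [Prod.smul_snd, smul_eq_mul]
            rw [e1]; field_simp; ring
        rwa [h4] at h3
    · obtain ⟨f, hf⟩ := nondeg q he 1
      obtain ⟨μ', hμ'⟩ : ∃ μ' : F, μ' ∉ ({0, 1 / t ^ 2, 1 + μ} : Finset F) := by
        by_contra hcon
        push Not at hcon
        have : (Finset.univ : Finset F) ⊆ {0, 1 / t ^ 2, 1 + μ} := fun z _ => hcon z
        have h3 := Finset.card_le_card this
        have h4 : ({0, 1 / t ^ 2, 1 + μ} : Finset F).card ≤ 3 := Finset.card_le_three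
        rw [Finset.card_univ] at h3
        omega
      simp only [Finset.mem_insert, Finset.mem_singleton, not_or] at hμ'
      obtain ⟨hμ0, hμt, hμ1⟩ := hμ'
      set γ := 1 + μ + μ' with hγ
      have hγ0 : γ ≠ 0 := by
        intro h; apply hμ1
        linear_combination h - (1 + μ) * h2
      set y := (t ^ 2 * μ' ^ 2 + μ' + γ ^ 2 * q.N f) / γ with hy
      have hTe : q.T (e * q.bar (y • e + γ • f)) = γ := by
        rw [map_add, mul_add, T_add, bar_smul, bar_smul, mul_smul_comm, mul_smul_comm, T_smul,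
          T_smul, T_self, T_comm, hf]; ring
      have hNe : q.N (y • e + γ • f) = t ^ 2 * μ' ^ 2 + μ' := by
        have hyγ : y * γ = t ^ 2 * μ' ^ 2 + μ' + γ ^ 2 * q.N f := by
          rw [hy]; field_simp
        rw [N_add, N_smul, N_smul, h1, bar_smul, smul_mul_assoc, mul_smul_comm, T_smul, T_smul,
          T_comm, hf]
        linear_combination hyγ + (γ ^ 2 * q.N f) * h2
      have hconn : (AY q (t ^ 2)).conn 0 (y • e + γ • f, μ') := by
        apply conn_of_ne ht ht1
        · show q.N _ + t ^ 2 * μ' ^ 2 = μ'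
          simp only
          rw [hNe]; linear_combination (t ^ 2 * μ' ^ 2) * h2
        · simp only
          rw [hNe]
          intro h
          apply hμt
          have : μ' * (t ^ 2 * μ' + 1) = 0 := by linear_combination h
          rcases mul_eq_zero.1 this with h | h
          · exact absurd h hμ0
          · field_simp; linear_combination h - h2
      refine Relation.ReflTransGen.tail hconn ⟨hx, ?_⟩
      show q.T ((y • e + γ • f) * q.bar e) + μ' + μ = 1
      rw [T_comm, hTe, hγ]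
      linear_combination (μ + μ') * h2
  · exact conn_of_ne ht ht1 hx h1

end

end Pool.Agent.Helper76.YG
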