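import Mathlib
import Pool.Agent.Helper35.YG.CoverDefs

set_option autoImplicit false
set_option linter.unusedSectionVars false

namespace Pool.Agent.Helper76.YG
open Pool.Agent.Helper35.YG

/-- a symmetry of a graph `(X, Adj)` on an ambient type -/
structure Sy {V : Type*} (X : Set V) (Adj : V → V → Prop) (g g' : V → V) : Prop where
  left : ∀ x, g' (g x) = x
  right : ∀ x, g (g' x) = x
  mem : ∀ x ∈ X, g x ∈ X
  mem' : ∀ x ∈ X, g' x ∈ X
  adj : ∀ x y, Adj x y → Adj (g x) (g y)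
  adj' : ∀ x y, Adj x y → Adj (g' x) (g' y)

section
variable {V Ω : Type*} {X : Set V} {Adj : V → V → Prop}

theorem Sy.refl : Sy X Adj id id :=
  ⟨fun _ => rfl, fun _ => rfl, fun _ h => h, fun _ h => h, fun _ _ h => h, fun _ _ h => h⟩

theorem Sy.comp {g g' h h' : V → V} (a : Sy X Adj g g') (b : Sy X Adj h h') :
    Sy X Adj (h ∘ g) (g' ∘ h') :=
  ⟨fun x => by simp [b.left, a.left], fun x => by simp [b.right, a.right],
    fun x hx => b.mem _ (a.mem _ hx), fun x hx => a.mem' _ (b.mem' _ hx),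
    fun x y hx => b.adj _ _ (a.adj _ _ hx), fun x y hx => a.adj' _ _ (b.adj' _ _ hx)⟩

theorem Sy.inv {g : V → V} (h : ∀ x, g (g x) = x) (hm : ∀ x ∈ X, g x ∈ X)
    (ha : ∀ x y, Adj x y → Adj (g x) (g y)) : Sy X Adj g g :=
  ⟨h, h, hm, hm, ha, ha⟩

theorem Sy.cover {g g' : V → V} (a : Sy X Adj g g') {E : Ω → Ω → Prop} {π : Ω → V}
    (hc : Cover X Adj E π) : Cover X Adj E (g ∘ π) where
  mem ω := a.mem _ (hc.mem ω)
  symm := hc.symm
  adj ω ω' h := a.adj _ _ (hc.adj _ _ h)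
  lift ω v hv h := by
    have h1 : Adj (π ω) (g' v) := by
      have := a.adj' _ _ h
      simpa [a.left] using this
    obtain ⟨ω', h2, h3⟩ := hc.lift ω (g' v) (a.mem' _ hv) h1
    exact ⟨ω', h2, by simp [h3, a.right]⟩
  uniq ω ω₁ ω₂ h1 h2 h := by
    apply hc.uniq ω ω₁ ω₂ h1 h2
    have := congrArg g' h
    simpa [a.left] using this
  tri ω ω₁ ω₂ h1 h2 h := by
    apply hc.tri ω ω₁ ω₂ h1 h2
    have := a.adj' _ _ h
    simpa [a.left] using this
  conn := hc.conn

end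

end Pool.Agent.Helper76.YG
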