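import Mathlib
import Pool.Agent.Helper76.YG.AQ
import Pool.Agent.Helper76.YG.QB
import Pool.Agent.Helper76.YG.Sym

set_option autoImplicit false
set_option linter.unusedSectionVars false

namespace Pool.Agent.Helper76.YG
open Pool.Agent.Helper35.YG

section
variable {F E : Type*} [Field F] [CharP F 2] [CommRing E] [Algebra F E] [Nontrivial E] (q : QE F E)

/-- the affine quadric `X4` -/
def AP : AQ F ((F × F × E) × F) where
  Q y := q.Q3 y.1 + y.2 ^ 2
  b y z := q.B3 y.1 z.1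
  l y := y.2
  Q_add x y := by
    have h2 : (2 : F) = 0 := CharTwo.two_eq_zero
    simp only [QE.Q3, QE.B3, Prod.fst_add, Prod.snd_add, N_add]
    linear_combination (x.2 * y.2) * h2
  Q_smul c x := by
    simp only [QE.Q3, Prod.smul_fst, Prod.smul_snd, N_smul, smul_eq_mul]; ring
  b_add x y z := by
    simp only [QE.B3, Prod.fst_add, Prod.snd_add, add_mul, T_add]; ring
  b_smul c x y := by
    simp only [QE.B3, Prod.smul_fst, Prod.smul_snd, smul_mul_assoc, T_smul, smul_eq_mul]; ring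
  b_comm x y := by
    simp only [QE.B3, T_comm q x.1.2.2]; ring
  b_self x := by
    have h2 : (2 : F) = 0 := CharTwo.two_eq_zero
    simp only [QE.B3, T_self]
    linear_combination (x.1.1 * x.1.2.1) * h2
  l_add x y := rfl
  l_smul c x := rfl

theorem mem_X4 (y : (F × F × E) × F) : y ∈ q.X4 ↔ y ∈ (AP q).X := by
  have h2 : (2 : F) = 0 := CharTwo.two_eq_zero
  show q.Q3 y.1 = y.2 ^ 2 + y.2 ↔ q.Q3 y.1 + y.2 ^ 2 = y.2
  constructor
  · intro h; linear_combination h + y.2 ^ 2 * h2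
  · intro h; linear_combination h - y.2 ^ 2 * h2

theorem X4_eq : q.X4 = (AP q).X := Set.ext (mem_X4 q)

theorem adj4_iff (y z : (F × F × E) × F) : q.Adj4 y z ↔ (AP q).BB y z = 1 ∧ y.1 ≠ z.1 := Iff.rfl

/-- the antipode direction -/
def rho (F E : Type*) [Field F] [CommRing E] : (F × F × E) × F := ((0, 0, 0), 1)

/-- The base point. -/
def oo (F E : Type*) [Field F] [CommRing E] : (F × F × E) × F := ((0, 0, 0), 1)

/-- The second base point. -/
def pp (F E : Type*) [Field F] [CommRing E] : (F × F × E) × F := ((1, 0, 0), 0)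

/-- a symmetry of `X4` -/
structure SyP (g g' : (F × F × E) × F → (F × F × E) × F) : Prop where
  sy : Sy q.X4 q.Adj4 g g'
  bb : ∀ x y, (AP q).BB (g x) (g y) = (AP q).BB x y
  anti : ∀ x, g (x + rho F E) = g x + rho F E

variable {q}

theorem SyP.refl : SyP q id id := ⟨Sy.refl, fun _ _ => rfl, fun _ => rfl⟩

theorem SyP.comp {g g' h h' : (F × F × E) × F → (F × F × E) × F} (a : SyP q g g')
    (b : SyP q h h') : SyP q (h ∘ g) (g' ∘ h') :=
  ⟨a.sy.comp b.sy, fun x y => by simp [b.bb, a.bb], fun x => by simp [a.anti, b.anti]⟩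

theorem r_fst (u : (F × F × E) × F) {y z : (F × F × E) × F} (h : y.1 = z.1) :
    ((AP q).r u y).1 = ((AP q).r u z).1 := by
  unfold AQ.r AQ.c
  simp only [AP, h, Prod.fst_add, Prod.smul_fst]

theorem syP_r {u : (F × F × E) × F} (hu : (AP q).Q u ≠ 0) :
    SyP q ((AP q).r u) ((AP q).r u) where
  sy := by
    apply Sy.inv
    · exact (AP q).r_r u
    · intro x hx
      rw [mem_X4] at hx ⊢
      exact (AP q).r_mem hu hx
    · intro x y hxy
      rw [adj4_iff] at hxy ⊢
      refine ⟨by rw [(AP q).BB_r hu]; exact hxy.1, fun h => hxy.2 ?_⟩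
      have := r_fst (q := q) u h
      rwa [AQ.r_r, AQ.r_r] at this
  bb := (AP q).BB_r hu
  anti x := by
    have : (AP q).c (x + rho F E) u = (AP q).c x u := by
      have e : (x + rho F E).1 = x.1 := by
        ext <;> simp [rho]
      show u.2 + q.B3 (x + rho F E).1 u.1 = u.2 + q.B3 x.1 u.1
      rw [e]
    unfold AQ.r
    rw [this]; abel

/-- swapping two points -/
theorem swap {x y : (F × F × E) × F} (hx : x ∈ q.X4) (hy : y ∈ q.X4)
    (h : (AP q).BB x y ≠ 0) :
    ∃ g, SyP q g g ∧ g x = y ∧ ∀ z, (AP q).BB x z = (AP q).BB y z → g z = z := by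
  rw [mem_X4] at hx hy
  obtain ⟨h1, h2⟩ := (AP q).r_swap hx hy h
  exact ⟨(AP q).r (x + y), syP_r (by rw [h1]; exact h), h2, fun z hz => (AP q).r_fix hz⟩

theorem anti_sy : SyP q (fun y => y + rho F E) (fun y => y + rho F E) := by
  have h := syP_r (q := q) (u := rho F E) (by
    show q.Q3 (0, 0, 0) + (1 : F) ^ 2 ≠ 0
    simp [QE.Q3, N_zero])
  have h1 : (AP q).r (rho F E) = fun y => y + rho F E := by
    funext y
    unfold AQ.r AQ.c
    have e1 : (AP q).l (rho F E) = 1 := rfl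
    have e2 : (AP q).b y (rho F E) = 0 := by
      show q.B3 y.1 (0, 0, 0) = 0
      simp [QE.B3, T_zero]
    have e3 : (AP q).Q (rho F E) = 1 := by
      show q.Q3 (0, 0, 0) + (1 : F) ^ 2 = 1
      simp [QE.Q3, N_zero]
    rw [e1, e2, e3]; simp
  rwa [h1] at h

theorem BB_oo (y : (F × F × E) × F) : (AP q).BB y (oo F E) = y.2 + 1 := by
  show q.B3 y.1 (0, 0, 0) + y.2 + 1 = y.2 + 1
  simp [QE.B3, T_zero]

theorem BB_pp (y : (F × F × E) × F) : (AP q).BB y (pp F E) = y.1.2.1 + y.2 := by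
  show q.B3 y.1 (1, 0, 0) + y.2 + 0 = y.1.2.1 + y.2
  simp [QE.B3, T_zero]

theorem oo_mem : oo F E ∈ q.X4 := by
  show q.Q3 (0, 0, 0) = (1 : F) ^ 2 + 1
  have h2 : (2 : F) = 0 := CharTwo.two_eq_zero
  simp only [QE.Q3, N_zero]
  linear_combination - h2

theorem pp_mem : pp F E ∈ q.X4 := by
  show q.Q3 (1, 0, 0) = (0 : F) ^ 2 + 0
  simp [QE.Q3, N_zero]

/-- moving a point to the base point -/
theorem exists_to_oo {v : (F × F × E) × F} (hv : v ∈ q.X4) : ∃ g g', SyP q g g' ∧ g v = oo F E := by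
  have h2 : (2 : F) = 0 := CharTwo.two_eq_zero
  by_cases h : v.2 = 1
  · have hv' := anti_sy.sy.mem v hv
    obtain ⟨g, hg, h1, -⟩ := swap hv' oo_mem (by
      rw [BB_oo]
      show v.2 + 1 + 1 ≠ 0
      rw [h]
      intro h3
      have : (1 : F) = 0 := by linear_combination h3 - h2
      exact one_ne_zero this)
    exact ⟨_, _, anti_sy.comp hg, h1⟩
  · obtain ⟨g, hg, h1, -⟩ := swap hv oo_mem (by
      rw [BB_oo]
      intro h3
      apply h
      linear_combination h3 - h2)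
    exact ⟨_, _, hg, h1⟩

/-- neighbours of the base point -/
theorem adj_oo {w : (F × F × E) × F} (hw : w ∈ q.X4) (h : q.Adj4 (oo F E) w) :
    w.2 = 0 ∧ w.1 ≠ 0 ∧ w.1.1 * w.1.2.1 = q.N w.1.2.2 := by
  have h2 : (2 : F) = 0 := CharTwo.two_eq_zero
  rw [adj4_iff, AQ.BB_comm, BB_oo] at h
  have h1 : w.2 = 0 := by linear_combination h.1
  refine ⟨h1, fun h3 => h.2 h3.symm, ?_⟩
  have h3 : q.Q3 w.1 = w.2 ^ 2 + w.2 := hw
  rw [h1] at h3
  unfold QE.Q3 at h3
  linear_combination h3 - q.N w.1.2.2 * h2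

theorem mem_of_singular {α β : F} {e : E} (h : α * β = q.N e) : (((α, β, e), 0) : (F × F × E) × F) ∈ q.X4 := by
  have h2 : (2 : F) = 0 := CharTwo.two_eq_zero
  show q.Q3 (α, β, e) = (0 : F) ^ 2 + 0
  unfold QE.Q3
  simp only
  linear_combination h + q.N e * h2

/-- moving an edge to the base edge -/
theorem exists_to_pp {v w : (F × F × E) × F} (hv : v ∈ q.X4) (hw : w ∈ q.X4) (h : q.Adj4 v w) :
    ∃ g g', SyP q g g' ∧ g v = oo F E ∧ g w = pp F E := by
  have h2 : (2 : F) = 0 := CharTwo.two_eq_zero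
  obtain ⟨g, g', hg, hgv⟩ := exists_to_oo hv
  have hw' := hg.sy.mem w hw
  have hadj := hg.sy.adj _ _ h
  rw [hgv] at hadj
  obtain ⟨e1, e2, e3⟩ := adj_oo hw' hadj
  -- it suffices to move `g w`
  suffices h' : ∃ k k', SyP q k k' ∧ k (oo F E) = oo F E ∧ k (g w) = pp F E by
    obtain ⟨k, k', hk, h1, h3⟩ := h'
    exact ⟨_, _, hg.comp hk, by simp [hgv, h1], by simp [h3]⟩
  generalize g w = w at hw' hadj e1 e2 e3
  obtain ⟨⟨α, β, e⟩, l⟩ := w
  simp only at e1 e2 e3
  subst e1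
  by_cases hβ : β = 0
  · subst hβ
    -- intermediate point
    obtain ⟨f, hf⟩ : ∃ f : E, α + q.T (f * q.bar e) ≠ 0 := by
      by_cases hα : α = 0
      · have he : e ≠ 0 := by
          rintro rfl; apply e2; rw [hα]; rfl
        obtain ⟨f, hf⟩ := nondeg q he 1
        exact ⟨f, by rw [hα, hf]; simp⟩
      · exact ⟨0, by rw [zero_mul, T_zero]; simpa using hα⟩
    have hz : (((q.N f, 1, f), 0) : (F × F × E) × F) ∈ q.X4 := mem_of_singular (by ring)
    obtain ⟨k1, hk1, h1, h1'⟩ := swap hw' hz (by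
      show q.B3 (α, 0, e) (q.N f, 1, f) + 0 + 0 ≠ 0
      unfold QE.B3
      simp only
      rw [T_comm]
      intro h; apply hf; linear_combination h)
    obtain ⟨k2, hk2, h3, h3'⟩ := swap hz pp_mem (by
      rw [BB_pp]; simp)
    refine ⟨_, _, hk1.comp hk2, ?_, ?_⟩
    · simp only [Function.comp]
      rw [h1' (oo F E) (by rw [BB_oo, BB_oo]), h3' (oo F E) (by rw [BB_oo, BB_oo]; rfl)]
    · simp only [Function.comp]
      rw [h1, h3]
  · obtain ⟨k, hk, h1, h3⟩ := swap hw' pp_mem (by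
      rw [BB_pp]
      simpa using hβ)
    exact ⟨k, k, hk, h3 _ (by rw [BB_oo, BB_oo]; rfl), h1⟩

end

end Pool.Agent.Helper76.YG
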