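import Mathlib
import Pool.Agent.Helper76.YG.P4
import Pool.Agent.Helper76.YG.Conn

set_option autoImplicit false
set_option linter.unusedSectionVars false

namespace Pool.Agent.Helper76.YG
open Pool.Agent.Helper35.YG

section
variable {F E : Type*} [Field F] [CharP F 2] [CommRing E] [Algebra F E] [Nontrivial E] {q : QE F E}

/-- moving a third point -/
theorem exists_to_qq [Fintype F] (hq : 4 ≤ Fintype.card F) {w : (F × F × E) × F} (hw : w ∈ q.X4)
    (h : q.Adj4 (oo F E) w) (ha : w.1.2.1 ≠ 0) :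
    ∃ g g', SyP q g g' ∧ g (oo F E) = oo F E ∧ g (pp F E) = pp F E ∧
      g w = ((0, w.1.2.1, 0), 0) := by
  classical
  have h2 : (2 : F) = 0 := CharTwo.two_eq_zero
  obtain ⟨e1, e2, e3⟩ := adj_oo hw h
  obtain ⟨⟨α, β, e⟩, l⟩ := w
  simp only at e1 e2 e3 ha
  subst e1
  have ht : (((0, β, 0), 0) : (F × F × E) × F) ∈ q.X4 := mem_of_singular (by rw [N_zero]; ring)
  by_cases hα : α = 0
  · subst hα
    by_cases he : e = 0
    · subst he
      exact ⟨_, _, SyP.refl, rfl, rfl, rfl⟩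
    · obtain ⟨k, hk⟩ : ∃ k : F, k ∉ ({0, q.T e} : Finset F) := by
        by_contra hcon
        push Not at hcon
        have : (Finset.univ : Finset F) ⊆ {0, q.T e} := fun z _ => hcon z
        have h3 := Finset.card_le_card this
        have h4 : ({0, q.T e} : Finset F).card ≤ 2 := Finset.card_le_two
        rw [Finset.card_univ] at h3
        omega
      simp only [Finset.mem_insert, Finset.mem_singleton, not_or] at hk
      have hz : (((k ^ 2 / β, β, algebraMap F E k), 0) : (F × F × E) × F) ∈ q.X4 :=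
        mem_of_singular (by rw [N_alg]; field_simp)
      obtain ⟨g1, hg1, h1, h1'⟩ := swap hw hz (by
        show q.B3 (0, β, e) (k ^ 2 / β, β, algebraMap F E k) + 0 + 0 ≠ 0
        unfold QE.B3
        simp only
        rw [q.bar_alg, mul_comm e, ← Algebra.smul_def, T_smul]
        have : 0 * β + k ^ 2 / β * β + k * q.T e + 0 + 0 = k * (k - q.T e) := by
          field_simp
          linear_combination (k * q.T e) * h2
        rw [this]
        exact mul_ne_zero hk.1 (sub_ne_zero.2 hk.2))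
      obtain ⟨g2, hg2, h3, h3'⟩ := swap hz ht (by
        show q.B3 (k ^ 2 / β, β, algebraMap F E k) (0, β, 0) + 0 + 0 ≠ 0
        unfold QE.B3
        simp only
        rw [map_zero, mul_zero, T_zero]
        have : k ^ 2 / β * β + 0 * β + 0 + 0 + 0 = k ^ 2 := by field_simp; ring
        rw [this]
        exact pow_ne_zero _ hk.1)
      refine ⟨_, _, hg1.comp hg2, ?_, ?_, ?_⟩
      · simp only [Function.comp]
        rw [h1' (oo F E) (by rw [BB_oo, BB_oo]), h3' (oo F E) (by rw [BB_oo, BB_oo])]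
      · simp only [Function.comp]
        rw [h1' (pp F E) (by rw [BB_pp, BB_pp]), h3' (pp F E) (by rw [BB_pp, BB_pp])]
      · simp only [Function.comp]
        rw [h1, h3]
  · obtain ⟨g, hg, h1, h1'⟩ := swap hw ht (by
      show q.B3 (α, β, e) (0, β, 0) + 0 + 0 ≠ 0
      unfold QE.B3
      simp only
      rw [map_zero, mul_zero, T_zero]
      have : α * β + 0 * β + 0 + 0 + 0 = α * β := by ring
      rw [this]
      exact mul_ne_zero hα ha)
    exact ⟨g, g, hg, h1' (oo F E) (by rw [BB_oo, BB_oo]), h1' (pp F E) (by rw [BB_pp, BB_pp]), h1⟩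

/-- the parametrisation of the common neighbours -/
def ph (a : F) (x : E × F) : (F × F × E) × F := ((x.2 / a, x.2, x.1), 1 + x.2)

theorem BB_ph {a : F} (ha : a ≠ 0) (x y : E × F) :
    (AP q).BB (ph a x) (ph a y) = (AY q ((a + 1) / a)).BB x y := by
  have h2 : (2 : F) = 0 := CharTwo.two_eq_zero
  show q.B3 _ _ + (1 + x.2) + (1 + y.2) = q.T (x.1 * q.bar y.1) + x.2 + y.2
  unfold QE.B3 ph
  simp only
  field_simp
  linear_combination (a + x.2 * y.2) * h2

theorem ph_mem {a : F} (ha : a ≠ 0) (x : E × F) :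
    ph a x ∈ q.X4 ↔ x ∈ (AY q ((a + 1) / a)).X := by
  have h2 : (2 : F) = 0 := CharTwo.two_eq_zero
  show q.Q3 _ = (1 + x.2) ^ 2 + (1 + x.2) ↔ q.N x.1 + (a + 1) / a * x.2 ^ 2 = x.2
  unfold QE.Q3 ph
  simp only
  have e1 : (a + 1) / a * x.2 ^ 2 = x.2 ^ 2 + x.2 / a * x.2 := by field_simp
  rw [e1]
  constructor
  · intro h; linear_combination h + (x.2 ^ 2 + x.2 + 1) * h2
  · intro h; linear_combination h - (x.2 ^ 2 + x.2 + 1) * h2

theorem adj_ph {a : F} {x y : E × F} (h : (AP q).BB (ph a x) (ph a y) = 1) :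
    q.Adj4 (ph a x) (ph a y) := by
  refine ⟨h, fun h3 => ?_⟩
  have h4 : x = y := by
    unfold ph at h3
    simp only [Prod.mk.injEq] at h3
    exact Prod.ext h3.2.2 h3.2.1
  rw [h4, AQ.BB_self] at h
  exact zero_ne_one h

theorem pp_adj_ph {a : F} (x : E × F) : q.Adj4 (pp F E) (ph a x) := by
  have h2 : (2 : F) = 0 := CharTwo.two_eq_zero
  refine ⟨?_, fun h => ?_⟩
  · show (AP q).BB (pp F E) (ph a x) = 1
    rw [AQ.BB_comm, BB_pp]
    unfold ph
    simp only
    linear_combination x.2 * h2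
  · unfold pp ph at h
    simp only [Prod.mk.injEq] at h
    rw [← h.2.1, zero_div] at h
    exact one_ne_zero h.1

theorem qq_adj_ph {a : F} (ha : a ≠ 0) (x : E × F) : q.Adj4 ((0, a, 0), 0) (ph a x) := by
  have h2 : (2 : F) = 0 := CharTwo.two_eq_zero
  refine ⟨?_, fun h => ?_⟩
  · unfold QE.B3 ph
    simp only
    rw [zero_mul, zero_mul, T_zero]
    field_simp
    linear_combination x.2 * h2
  · unfold ph at h
    simp only [Prod.mk.injEq] at h
    have h3 : x.2 = 0 := by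
      have := h.1
      field_simp at this
      linear_combination - this
    exact ha (h.2.1.trans h3)

variable {Ω : Type*} {R : Ω → Ω → Prop} {π : Ω → (F × F × E) × F}

/-- STEP 1 in normal form -/
theorem step1_normal [Fintype F] (hq : 4 ≤ Fintype.card F) (hc : Cover q.X4 q.Adj4 R π)
    {ω₀ ω₁ ω₂ : Ω} (h01 : R ω₀ ω₁) (h12 : R ω₁ ω₂) {a : F} (ha : a ≠ 0) (ha1 : a ≠ 1)
    (h0 : π ω₀ = pp F E) (h1 : π ω₁ = oo F E) (h2 : π ω₂ = ((0, a, 0), 0))
    {ωx : Ω} (hx : R ω₀ ωx) (hx2 : q.Adj4 (π ωx) (π ω₂)) : R ωx ω₂ := by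
  have h22 : (2 : F) = 0 := CharTwo.two_eq_zero
  have key : ∀ x, (AY q ((a + 1) / a)).conn 0 x → ∃ ωy, π ωy = ph a x ∧ R ω₀ ωy ∧ R ω₂ ωy := by
    intro x hx
    unfold AQ.conn at hx
    induction hx with
    | refl =>
      refine ⟨ω₁, ?_, h01, hc.symm _ _ h12⟩
      rw [h1]
      unfold oo ph
      ext <;> simp
    | @tail x y _ hxy ih =>
      obtain ⟨ωx, e1, e2, e3⟩ := ih
      have hA : q.Adj4 (ph a x) (ph a y) := adj_ph (by rw [BB_ph ha]; exact hxy.2)
      obtain ⟨ωy, e4, e5⟩ := hc.lift ωx (ph a y) ((ph_mem ha y).2 hxy.1) (by rw [e1]; exact hA)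
      refine ⟨ωy, e5, hc.tri _ _ _ e2 e4 ?_, hc.tri _ _ _ e3 e4 ?_⟩
      · rw [h0, e5]; exact pp_adj_ph y
      · rw [h2, e5]; exact qq_adj_ph ha y
  -- the point is of the form `ph a x`
  have hA0 := hc.adj _ _ hx
  rw [h0, adj4_iff, AQ.BB_comm, BB_pp] at hA0
  have hA2 := hx2.1
  rw [h2] at hA2
  unfold QE.B3 at hA2
  simp only at hA2
  rw [map_zero, mul_zero, T_zero] at hA2
  have hph : π ωx = ph a ((π ωx).1.2.2, 1 + (π ωx).2) := by
    unfold ph
    ext
    · show (π ωx).1.1 = (1 + (π ωx).2) / a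
      field_simp
      linear_combination hA2 - (π ωx).2 * h22
    · show (π ωx).1.2.1 = 1 + (π ωx).2
      linear_combination hA0.1 - (π ωx).2 * h22
    · rfl
    · show (π ωx).2 = 1 + (1 + (π ωx).2)
      linear_combination - h22
  have hmem := hc.mem ωx
  rw [hph, ph_mem ha] at hmem
  have hθ : (a + 1) / a ≠ 0 := by
    apply div_ne_zero _ ha
    intro h; apply ha1; linear_combination h - h22
  have hθ1 : (a + 1) / a ≠ 1 := by
    intro h
    field_simp at h
    have : (1 : F) = 0 := by linear_combination h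
    exact one_ne_zero this
  obtain ⟨ωy, e1, e2, e3⟩ := key _ (conn_Y hq hθ hθ1 hmem)
  rw [← hph] at e1
  rw [hc.uniq _ _ _ hx e2 e1.symm]
  exact hc.symm _ _ e3

/-- STEP 1 -/
theorem step1 [Fintype F] (hq : 4 ≤ Fintype.card F) (hc : Cover q.X4 q.Adj4 R π)
    {ω₀ ω₁ ω₂ : Ω} (h01 : R ω₀ ω₁) (h12 : R ω₁ ω₂) (ha : (AP q).BB (π ω₀) (π ω₂) ≠ 0)
    (ha1 : (AP q).BB (π ω₀) (π ω₂) ≠ 1)
    {ωx : Ω} (hx : R ω₀ ωx) (hx2 : q.Adj4 (π ωx) (π ω₂)) : R ωx ω₂ := by
  obtain ⟨g, g', hg, hg1, hg0⟩ := exists_to_pp (hc.mem ω₁) (hc.mem ω₀)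
    (hc.adj _ _ (hc.symm _ _ h01))
  have hc1 := hg.sy.cover hc
  have hA := hc1.adj _ _ h12
  simp only [Function.comp, hg1] at hA
  have hm := hc1.mem ω₂
  simp only [Function.comp] at hm
  have hb : (AP q).BB (g (π ω₂)) (pp F E) = (AP q).BB (π ω₀) (π ω₂) := by
    rw [← hg0, hg.bb, AQ.BB_comm]
  rw [BB_pp, (adj_oo hm hA).1, add_zero] at hb
  obtain ⟨k, k', hk, hk1, hk0, hk2⟩ := exists_to_qq hq hm hA (by rw [hb]; exact ha)
  have hc2 := hk.sy.cover hc1
  refine step1_normal hq hc2 (a := (g (π ω₂)).1.2.1) h01 h12 (by rw [hb]; exact ha)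
    (by rw [hb]; exact ha1) ?_ ?_ ?_ hx ?_
  · simp only [Function.comp, hg0, hk0]
  · simp only [Function.comp, hg1, hk1]
  · simp only [Function.comp]; exact hk2
  · exact hk.sy.adj _ _ (hg.sy.adj _ _ hx2)

end

end Pool.Agent.Helper76.YG
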