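import Mathlib
import Pool.Agent.Helper76.YG.Step1
import Pool.Agent.Helper76.YG.Count
import Pool.Agent.Helper76.YG.Solve4

set_option autoImplicit false
set_option linter.unusedSectionVars false

namespace Pool.Agent.Helper76.YG
open Pool.Agent.Helper35.YG

section
variable {F E : Type*} [Field F] [CharP F 2] [CommRing E] [Algebra F E] [Nontrivial E] {q : QE F E}

theorem finE (q : QE F E) : Module.Finite F E := by
  classical
  refine ⟨⟨{1, ze q}, ?_⟩⟩
  rw [eq_top_iff]
  intro x _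
  obtain ⟨a, b, rfl⟩ := span' q x
  rw [Algebra.algebraMap_eq_smul_one]
  refine add_mem (Submodule.smul_mem _ _ (Submodule.subset_span ?_))
    (Submodule.smul_mem _ _ (Submodule.subset_span ?_)) <;> simp

theorem finrankP (q : QE F E) : 4 ≤ Module.finrank F ((F × F × E) × F) := by
  have := finE q
  rw [Module.finrank_prod, Module.finrank_prod, Module.finrank_prod, Module.finrank_self]
  have : 0 < Module.finrank F E := Module.finrank_pos
  omega

theorem ndP (y : (F × F × E) × F) (h : ∀ x, (AP q).b x y = 0) (hQ : (AP q).Q y = 0) : y = 0 := by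
  obtain ⟨⟨α, β, e⟩, l⟩ := y
  have h1 : β = 0 := by
    have := h ((1, 0, 0), 0)
    simp only [AP, QE.B3, zero_mul, T_zero] at this
    linear_combination this
  have h3 : α = 0 := by
    have := h ((0, 1, 0), 0)
    simp only [AP, QE.B3, zero_mul, T_zero] at this
    linear_combination this
  have h4 : e = 0 := by
    by_contra he
    obtain ⟨f, hf⟩ := nondeg q he 1
    have := h ((0, 0, f), 0)
    simp only [AP, QE.B3, hf] at this
    have h5 : (1 : F) = 0 := by linear_combination this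
    exact one_ne_zero h5
  subst h1 h3 h4
  have h6 : q.Q3 (0, 0, 0) + l ^ 2 = 0 := hQ
  have h7 : l ^ 2 = 0 := by
    simpa [QE.Q3, N_zero] using h6
  have h8 : l = 0 := pow_eq_zero_iff (two_ne_zero) |>.1 h7
  rw [h8]; rfl

theorem common3 [Fintype F] (A Z C : (F × F × E) × F)
    (hP : (AP q).BB A Z + (AP q).BB Z C + (AP q).BB A C ≠ 0) :
    ∃ x ∈ q.X4, (AP q).BB x A = 1 ∧ (AP q).BB x Z = 1 ∧ (AP q).BB x C = 1 := by
  have := finE q
  rw [X4_eq]
  refine (AP q).exists_common (finrankP q) ndP (ρ := rho F E) ?_ rfl A Z C hP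
  intro x
  show q.B3 x.1 (0, 0, 0) = 0
  simp [QE.B3, T_zero]

/-- two points with equal first component -/
theorem fst_ne {x y w : (F × F × E) × F} (h : (AP q).BB x y = 1)
    (h' : (AP q).BB x w ≠ (AP q).BB y w + 1) : x.1 ≠ y.1 := by
  have h2 : (2 : F) = 0 := CharTwo.two_eq_zero
  intro h3
  apply h'
  have e1 : q.B3 x.1 y.1 + x.2 + y.2 = 1 := h
  have e2 : q.B3 x.1 y.1 = 0 := by rw [h3]; exact (AP q).b_self y
  rw [e2, zero_add] at e1
  show q.B3 x.1 w.1 + x.2 + w.2 = q.B3 y.1 w.1 + y.2 + w.2 + 1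
  rw [h3]
  linear_combination e1 - y.2 * h2

/-- the bad relation -/
def Bad4 (F E : Type*) [Field F] [CommRing E] (y z : (F × F × E) × F) : Prop :=
  z = y + rho F E

variable {Ω : Type*} {R : Ω → Ω → Prop} {π : Ω → (F × F × E) × F}

/-- STEP 2 in normal form -/
theorem near_normal [Fintype F] (hq : 4 ≤ Fintype.card F) (hc : Cover q.X4 q.Adj4 R π)
    {ω₀ ω₁ ω₂ ω₃ : Ω} (h01 : R ω₀ ω₁) (h12 : R ω₁ ω₂) (h23 : R ω₂ ω₃)
    (hb : ¬ Bad4 F E (π ω₀) (π ω₃)) (h1 : π ω₁ = oo F E) (h2 : π ω₂ = pp F E) :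
    Near R ω₀ ω₃ := by
  have h22 : (2 : F) = 0 := CharTwo.two_eq_zero
  have h10 := hc.symm _ _ h01
  have h21 := hc.symm _ _ h12
  have h32 := hc.symm _ _ h23
  have A01 := hc.adj _ _ h01
  have A12 := hc.adj _ _ h12
  have A23 := hc.adj _ _ h23
  have B01 : (AP q).BB (π ω₀) (π ω₁) = 1 := A01.1
  have B12 : (AP q).BB (π ω₁) (π ω₂) = 1 := A12.1
  have B23 : (AP q).BB (π ω₂) (π ω₃) = 1 := A23.1
  by_cases ha : (AP q).BB (π ω₀) (π ω₂) = 1
  · have hA : q.Adj4 (π ω₀) (π ω₂) := ⟨ha, fst_ne (w := π ω₁) ha (by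
      rw [B01, AQ.BB_comm, B12]
      intro h; have : (1 : F) = 0 := by linear_combination - h
      exact one_ne_zero this)⟩
    exact Or.inr (Or.inr ⟨ω₂, hc.tri _ _ _ h01 h12 hA, h23⟩)
  by_cases hb1 : (AP q).BB (π ω₁) (π ω₃) = 1
  · have hA : q.Adj4 (π ω₁) (π ω₃) := ⟨hb1, fst_ne (w := π ω₂) hb1 (by
      rw [B12, AQ.BB_comm, B23]
      intro h; have : (1 : F) = 0 := by linear_combination - h
      exact one_ne_zero this)⟩
    exact Or.inr (Or.inr ⟨ω₁, h01, hc.tri _ _ _ h12 h23 hA⟩)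
  -- coordinates
  have hz : ∃ z ∈ q.X4, (AP q).BB z (π ω₁) = 1 ∧ (AP q).BB z (π ω₂) = 1 ∧
      (AP q).BB (π ω₀) z ≠ 0 ∧ (AP q).BB z (π ω₃) ≠ 0 ∧
      (AP q).BB (π ω₀) z + (AP q).BB z (π ω₃) + (AP q).BB (π ω₀) (π ω₃) ≠ 0 := by
    rw [h1] at A01 A12 B01 B12 hb1
    rw [h2] at A12 A23 ha B12 B23
    rw [h1, h2]
    have m0 := hc.mem ω₀
    have m3 := hc.mem ω₃
    obtain ⟨e1, e2, e3⟩ := adj_oo m0 (by
      refine ⟨?_, fun h => A01.2 h.symm⟩
      have : (AP q).BB (oo F E) (π ω₀) = 1 := by rw [AQ.BB_comm]; exact B01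
      exact this)
    generalize π ω₀ = v₀ at *
    generalize π ω₃ = v₃ at *
    obtain ⟨⟨y1, a, e0⟩, l0⟩ := v₀
    obtain ⟨⟨x1, b, e3'⟩, l3⟩ := v₃
    simp only at e1 e2 e3
    subst e1
    rw [AQ.BB_comm, BB_pp] at B23
    simp only at B23
    have hl3 : l3 = b + 1 := by linear_combination B23 - b * h22
    subst hl3
    rw [AQ.BB_comm, BB_oo] at hb1
    rw [BB_pp] at ha
    simp only [add_zero] at ha hb1
    have hb1' : b ≠ 1 := by
      intro h; apply hb1; rw [h]; linear_combination h22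
    have m3' : x1 * b + q.N e3' = (b + 1) ^ 2 + (b + 1) := m3
    obtain ⟨e, f1, f2, f3⟩ := exists_nonzero q hq (A₁ := a) (C₁ := y1) (A₂ := b)
      (C₂ := x1 + b + 1) (A₃ := a + b) (C₃ := y1 * (1 + b) + x1 * (1 + a) + q.T (e0 * q.bar e3'))
      (g₁ := e0) (g₂ := e3') (g₃ := e0 + e3') (by
        by_contra hcon
        push Not at hcon
        apply e2
        rw [hcon.1, hcon.2.1, hcon.2.2]; rfl) (by
        by_contra hcon
        push Not at hcon
        obtain ⟨rfl, rfl, h5⟩ := hcon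
        apply A23.2
        show ((1, 0, 0) : F × F × E) = (x1, 0, 0)
        have : x1 = 1 := by linear_combination h5 - h22
        rw [this]) (by
        by_contra hcon
        push Not at hcon
        obtain ⟨h5, h6, h7⟩ := hcon
        have hE2 := two_E q
        have h8 : b = a := by linear_combination h5 - a * h22
        have h9 : e3' = e0 := by linear_combination h6 - e0 * hE2
        rw [h8, h9, T_self] at h7
        rw [h8, h9] at m3'
        have h10 : (1 + a) * (y1 + x1) = 0 := by linear_combination h7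
        have h11 : 1 + a ≠ 0 := by
          intro h; apply ha; linear_combination h - h22
        have h12 : y1 + x1 = 0 := by
          rcases mul_eq_zero.1 h10 with h | h
          · exact absurd h h11
          · exact h
        have h13 : x1 = y1 := by linear_combination h12 - y1 * h22
        rw [h13] at m3'
        have h14 : a * (a + 1) = 0 := by linear_combination e3 - m3' + (q.N e0 - a - 1) * h22
        have h15 : a = 0 := by
          rcases mul_eq_zero.1 h14 with h | h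
          · exact h
          · exact absurd (by linear_combination h) h11
        apply hb
        show (((x1, b, e3'), b + 1) : (F × F × E) × F) = ((y1, a, e0), 0) + ((0, 0, 0), 1)
        rw [h13, h8, h9, h15]
        ext <;> simp) (by linear_combination e3) (by
        linear_combination m3' + (b ^ 2 + 2 * b + 1 - q.N e3') * h22)
    refine ⟨((q.N e, 1, e), 0), mem_of_singular (by ring), ?_, ?_, ?_, ?_, ?_⟩
    · rw [BB_oo]; simp
    · rw [BB_pp]; simp
    · show q.B3 (y1, a, e0) (q.N e, 1, e) + 0 + 0 ≠ 0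
      unfold QE.B3
      simp only
      rw [T_comm]
      intro h; apply f1; linear_combination h
    · show q.B3 (q.N e, 1, e) (x1, b, e3') + 0 + (b + 1) ≠ 0
      unfold QE.B3
      simp only
      intro h; apply f2; linear_combination h
    · show q.B3 (y1, a, e0) (q.N e, 1, e) + 0 + 0 + (q.B3 (q.N e, 1, e) (x1, b, e3') + 0 + (b + 1)) +
        (q.B3 (y1, a, e0) (x1, b, e3') + 0 + (b + 1)) ≠ 0
      unfold QE.B3
      simp only
      rw [T_comm q e0 e]
      intro h
      apply f3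
      rw [map_add, mul_add, T_add]
      linear_combination h - (b + 1) * h22
  obtain ⟨z, hzm, z1, z2, z0, z3, zP⟩ := hz
  have hone : (1 : F) ≠ 0 := one_ne_zero
  have B21 : (AP q).BB (π ω₂) (π ω₁) = 1 := by rw [AQ.BB_comm]; exact B12
  have B32 : (AP q).BB (π ω₃) (π ω₂) = 1 := by rw [AQ.BB_comm]; exact B23
  -- `z` is adjacent to `v₁` and `v₂`
  have hz1 : q.Adj4 (π ω₁) z := by
    have hB : (AP q).BB (π ω₁) z = 1 := by rw [AQ.BB_comm]; exact z1
    refine ⟨hB, fst_ne (w := π ω₂) hB ?_⟩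
    rw [B12, z2]
    intro h; apply hone; linear_combination - h
  have hz2 : q.Adj4 (π ω₂) z := by
    have hB : (AP q).BB (π ω₂) z = 1 := by rw [AQ.BB_comm]; exact z2
    refine ⟨hB, fst_ne (w := π ω₁) hB ?_⟩
    rw [B21, z1]
    intro h; apply hone; linear_combination - h
  obtain ⟨ωz, r1z, rfl⟩ := hc.lift ω₁ z hzm hz1
  have r2z : R ω₂ ωz := hc.tri _ _ _ h21 r1z hz2
  obtain ⟨x, hxm, x0, xz, x3⟩ := common3 (q := q) (π ω₀) (π ωz) (π ω₃) zP
  have hx0 : q.Adj4 (π ω₀) x := by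
    have hB : (AP q).BB (π ω₀) x = 1 := by rw [AQ.BB_comm]; exact x0
    refine ⟨hB, fst_ne (w := π ωz) hB ?_⟩
    rw [xz]
    intro h; apply z0; linear_combination h + h22
  have hxz : q.Adj4 x (π ωz) := by
    refine ⟨xz, fst_ne (w := π ω₀) xz ?_⟩
    rw [x0, AQ.BB_comm (AP q) (π ωz)]
    intro h; apply z0; linear_combination - h
  have hx3 : q.Adj4 x (π ω₃) := by
    refine ⟨x3, fst_ne (w := π ωz) x3 ?_⟩
    rw [xz, AQ.BB_comm (AP q) (π ω₃)]
    intro h; apply z3; linear_combination - h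
  obtain ⟨ωx, r0x, rfl⟩ := hc.lift ω₀ x hxm hx0
  have rxz : R ωx ωz := by
    by_cases h : (AP q).BB (π ω₀) (π ωz) = 1
    · have hA : q.Adj4 (π ω₀) (π ωz) := ⟨h, fst_ne (w := π ω₁) h (by
        rw [B01, z1]
        intro h; apply hone; linear_combination - h)⟩
      exact hc.tri _ _ _ (hc.symm _ _ r0x) (hc.tri _ _ _ h01 r1z hA) hxz
    · exact step1 hq hc h01 r1z z0 h r0x hxz
  have rx3 : R ωx ω₃ := by
    by_cases h : (AP q).BB (π ωz) (π ω₃) = 1
    · have hA : q.Adj4 (π ωz) (π ω₃) := ⟨h, fst_ne (w := π ω₂) h (by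
        rw [z2, B32]
        intro h; apply hone; linear_combination - h)⟩
      exact hc.tri _ _ _ rxz (hc.tri _ _ _ (hc.symm _ _ r2z) h23 hA) hx3
    · exact step1 hq hc (hc.symm _ _ r2z) h23 z3 h (hc.symm _ _ rxz) hx3
  exact Or.inr (Or.inr ⟨ωx, r0x, rx3⟩)

/-- STEP 2 -/
theorem near4 [Fintype F] (hq : 4 ≤ Fintype.card F) (hc : Cover q.X4 q.Adj4 R π)
    {ω₀ ω₁ ω₂ ω₃ : Ω} (h01 : R ω₀ ω₁) (h12 : R ω₁ ω₂) (h23 : R ω₂ ω₃)
    (hb : ¬ Bad4 F E (π ω₀) (π ω₃)) : Near R ω₀ ω₃ := by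
  obtain ⟨g, g', hg, g1, g2⟩ := exists_to_pp (hc.mem ω₁) (hc.mem ω₂) (hc.adj _ _ h12)
  refine near_normal hq (hg.sy.cover hc) h01 h12 h23 ?_ g1 g2
  intro h
  apply hb
  unfold Bad4 at h ⊢
  simp only [Function.comp] at h
  rw [← hg.anti] at h
  have := congrArg g' h
  rwa [hg.sy.left, hg.sy.left] at this

/-- STEP 3: the extra neighbour, in normal form -/
theorem extra_normal [Fintype F] (hq : 4 ≤ Fintype.card F) {v : (F × F × E) × F}
    (hv : v ∈ q.X4) (hadj : q.Adj4 (oo F E) v) :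
    ∃ w ∈ q.X4, q.Adj4 (pp F E) w ∧ q.Adj4 w v ∧ w ≠ oo F E := by
  classical
  have h22 : (2 : F) = 0 := CharTwo.two_eq_zero
  obtain ⟨e1, e2, e3⟩ := adj_oo hv hadj
  obtain ⟨⟨α, β, e⟩, l⟩ := v
  simp only at e1 e2 e3
  subst e1
  -- first type
  have type1 : (∃ f : E, q.N f * β + α + q.T (f * q.bar e) = 1) →
      ∃ w ∈ q.X4, q.Adj4 (pp F E) w ∧ q.Adj4 w ((α, β, e), 0) ∧ w ≠ oo F E := by
    rintro ⟨f, hf⟩
    have hB1 : (AP q).BB (pp F E) ((q.N f, 1, f), 0) = 1 := by
      rw [AQ.BB_comm, BB_pp]; simp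
    have hB2 : (AP q).BB ((q.N f, 1, f), 0) ((α, β, e), 0) = 1 := by
      show q.B3 (q.N f, 1, f) (α, β, e) + 0 + 0 = 1
      unfold QE.B3
      simp only
      linear_combination hf
    refine ⟨((q.N f, 1, f), 0), mem_of_singular (by ring), ⟨hB1, ?_⟩, ⟨hB2, ?_⟩, ?_⟩
    · intro h
      unfold pp at h
      simp only [Prod.mk.injEq] at h
      exact zero_ne_one h.2.1
    · refine fst_ne (w := oo F E) hB2 ?_
      rw [BB_oo, BB_oo]
      intro h
      have : (1 : F) = 0 := by linear_combination - h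
      exact one_ne_zero this
    · intro h
      have := congrArg Prod.snd h
      exact zero_ne_one this
  by_cases hβ : β = 0
  · by_cases he : e = 0
    · by_cases hα : α = 1
      · apply type1
        exact ⟨0, by rw [zero_mul, T_zero, hβ, hα]; ring⟩
      · -- second type
        obtain ⟨k, hk⟩ : ∃ k : F, k ∉ ({0, 1, α} : Finset F) := by
          by_contra hcon
          push Not at hcon
          have : (Finset.univ : Finset F) ⊆ {0, 1, α} := fun z _ => hcon z
          have h3 := Finset.card_le_card this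
          have h4 : ({0, 1, α} : Finset F).card ≤ 3 := Finset.card_le_three
          rw [Finset.card_univ] at h3
          omega
        simp only [Finset.mem_insert, Finset.mem_singleton, not_or] at hk
        obtain ⟨hk0, hk1, hkα⟩ := hk
        refine ⟨((k, 0, 0), 1), ?_, ⟨?_, ?_⟩, ⟨?_, ?_⟩, ?_⟩
        · show q.Q3 (k, 0, 0) = (1 : F) ^ 2 + 1
          unfold QE.Q3
          simp only
          rw [N_zero]
          linear_combination - h22
        · show (AP q).BB (pp F E) ((k, 0, 0), 1) = 1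
          rw [AQ.BB_comm, BB_pp]; simp
        · intro h
          unfold pp at h
          simp only [Prod.mk.injEq] at h
          exact hk1 h.1.symm
        · rw [hβ, he]
          unfold QE.B3
          simp only
          rw [zero_mul, T_zero]; ring
        · intro h
          simp only [Prod.mk.injEq] at h
          exact hkα h.1
        · intro h
          unfold oo at h
          simp only [Prod.mk.injEq] at h
          exact hk0 h.1.1
    · obtain ⟨f, hf⟩ := nondeg q he (1 - α)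
      apply type1
      exact ⟨f, by rw [hf, hβ]; ring⟩
  · obtain ⟨t, ht⟩ := exists_sqrt (1 / β)
    apply type1
    refine ⟨β⁻¹ • e + algebraMap F E t, ?_⟩
    have h1 : q.T (e * q.bar e) = 0 := T_self q e
    rw [N_add, N_smul, N_alg, q.bar_alg, mul_comm (β⁻¹ • e), ← Algebra.smul_def, T_smul, T_smul,
      add_mul (β⁻¹ • e), T_add, smul_mul_assoc, T_smul, h1, ← Algebra.smul_def, T_smul, T_bar,
      ← e3, ht]
    field_simp
    linear_combination (β * α + β * t * q.T e) * h22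

theorem extra [Fintype F] (hq : 4 ≤ Fintype.card F) {v₀ v₁ v₂ : (F × F × E) × F}
    (h0 : v₀ ∈ q.X4) (h1 : v₁ ∈ q.X4) (h2 : v₂ ∈ q.X4) (h01 : q.Adj4 v₀ v₁) (h12 : q.Adj4 v₁ v₂) :
    ∃ w ∈ q.X4, q.Adj4 v₀ w ∧ q.Adj4 w v₂ ∧ w ≠ v₁ := by
  have h10 : q.Adj4 v₁ v₀ := by
    refine ⟨?_, fun h => h01.2 h.symm⟩
    have := h01.1
    exact (AQ.BB_comm (AP q) _ _).trans this
  obtain ⟨g, g', hg, g1, g0⟩ := exists_to_pp h1 h0 h10
  have hA := hg.sy.adj _ _ h12
  rw [g1] at hA
  obtain ⟨w, hw, w0, w2, w1⟩ := extra_normal hq (hg.sy.mem _ h2) hA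
  refine ⟨g' w, hg.sy.mem' _ hw, ?_, ?_, ?_⟩
  · have := hg.sy.adj' _ _ w0
    rwa [← g0, hg.sy.left] at this
  · have := hg.sy.adj' _ _ w2
    rwa [hg.sy.left] at this
  · intro h
    apply w1
    rw [← g1, ← h, hg.sy.right]

/-- **the covering theorem for `X4`** -/
theorem SC_four [Fintype F] (hq : 4 ≤ Fintype.card F) (q : QE F E) (hc : Cover q.X4 q.Adj4 R π) :
    Function.Injective π := by
  have h22 : (2 : F) = 0 := CharTwo.two_eq_zero
  have hsymm : ∀ v w, q.Adj4 v w → q.Adj4 w v := by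
    intro v w h
    exact ⟨(AQ.BB_comm (AP q) _ _).trans h.1, fun h' => h.2 h'.symm⟩
  refine cover_injective hc (Bad4 F E) (fun v _ h => h.2 rfl) hsymm ?_ ?_ ?_
  · intro v w h hb
    apply h.2
    unfold Bad4 at hb
    rw [hb]
    ext <;> simp [rho]
  · intro ω₀ ω₁ ω₂ ω₃ h01 h12 h23 hb
    exact near4 hq hc h01 h12 h23 hb
  · intro v₀ h0 v₁ h1 v₂ h2 v₄ h4 h01 h12 hb
    obtain ⟨w, hw, w0, w2, w1⟩ := extra hq h0 h1 h2 h01 h12
    refine ⟨w, hw, w0, w2, ?_⟩
    intro hb'
    apply w1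
    unfold Bad4 at hb hb'
    rw [hb] at hb'
    exact (add_right_cancel hb').symm

end

end Pool.Agent.Helper76.YG
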